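import Mathlib

/-! Combinatorics of pair systems and of domination along injective sequences. -/

namespace Pool.Agent.H93.Cwh

open Cardinal Set Filter

/-- A selection `f` is good on `S` for the pair system `F`. -/
def GoodOn {D : Type} (F : D → D → ℕ → ℕ → Prop) (S : Set D) (f : D → ℕ) : Prop :=
  ∀ d ∈ S, ∀ e ∈ S, d ≠ e → ¬ F d e (f d) (f e)

/-- Symmetric, downward closed, good on all subsets of size at most `μ`, and bad. -/
structure BadSystem (μ : Cardinal.{0}) {D : Type} (F : D → D → ℕ → ℕ → Prop) : Prop where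
  symm : ∀ d e m n, F d e m n → F e d n m
  down : ∀ d e m n m' n', F d e m n → m' ≤ m → n' ≤ n → F d e m' n'
  small : ∀ S : Set D, #S ≤ μ → ∃ f, GoodOn F S f
  bad : ¬ ∃ f, GoodOn F Set.univ f

/-- Domination along sequences: `a` attaches to every `f : N → ℕ` an injective sequence in `N`
such that any at most `μ` functions `f` are dominated by one function `g`, each one along its own
sequence and up to finitely many terms. -/
def SeqDom (μ : Cardinal.{0}) (N : Type) : Prop :=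
  ∃ a : (N → ℕ) → (ℕ → N), (∀ f, Function.Injective (a f)) ∧
    ∀ 𝓕 : Set (N → ℕ), #𝓕 ≤ μ →
      ∃ g : N → ℕ, ∀ f ∈ 𝓕, ∀ᶠ k in atTop, f (a f k) < g (a f k)

section forward

variable {N : Type} (a : (N → ℕ) → (ℕ → N))

/-- the pair system of `a` -/
def seqSys : (N ⊕ (N → ℕ)) → (N ⊕ (N → ℕ)) → ℕ → ℕ → Prop
  | Sum.inl x, Sum.inr f, m, n => ∃ k, n ≤ k ∧ a f k = x ∧ m ≤ f x
  | Sum.inr f, Sum.inl x, n, m => ∃ k, n ≤ k ∧ a f k = x ∧ m ≤ f x
  | _, _, _, _ => False

theorem seqSys_reg (ha : ∀ f, Function.Injective (a f)) :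
    ∀ d e m, ∃ n, ¬ seqSys a d e m n := by
  rintro (x | f) (y | g) m
  · exact ⟨0, fun h => h⟩
  · by_cases h : ∃ k, a g k = x
    · obtain ⟨k, hk⟩ := h
      refine ⟨k + 1, ?_⟩
      rintro ⟨l, h1, h2, -⟩
      have : l = k := ha g (h2.trans hk.symm)
      omega
    · exact ⟨0, fun ⟨l, _, h2, _⟩ => h ⟨l, h2⟩⟩
  · refine ⟨f y + 1, ?_⟩
    rintro ⟨l, -, -, h3⟩
    omega
  · exact ⟨0, fun h => h⟩

theorem seqSys_bad {μ : Cardinal.{0}}
    (ha : ∀ 𝓕 : Set (N → ℕ), #𝓕 ≤ μ →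
      ∃ g : N → ℕ, ∀ f ∈ 𝓕, ∀ᶠ k in atTop, f (a f k) < g (a f k)) :
    BadSystem μ (seqSys a) where
  symm := by
    rintro (x | f) (y | g) m n h
    · exact h
    · exact h
    · exact h
    · exact h
  down := by
    rintro (x | f) (y | g) m n m' n' h hm hn
    · exact h
    · obtain ⟨k, h1, h2, h3⟩ := h
      exact ⟨k, hn.trans h1, h2, hm.trans h3⟩
    · obtain ⟨k, h1, h2, h3⟩ := h
      exact ⟨k, hm.trans h1, h2, hn.trans h3⟩
    · exact h
  small := by
    intro S hS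
    let 𝓕 : Set (N → ℕ) := {f | Sum.inr f ∈ S}
    have h𝓕 : #𝓕 ≤ μ := by
      refine le_trans ?_ hS
      refine Cardinal.mk_le_of_injective (f := fun f : 𝓕 => (⟨Sum.inr f.1, f.2⟩ : S)) ?_
      intro f g h
      have h1 : (Sum.inr f.1 : N ⊕ (N → ℕ)) = Sum.inr g.1 := congrArg Subtype.val h
      exact Subtype.ext (Sum.inr_injective h1)
    obtain ⟨g, hg⟩ := ha 𝓕 h𝓕
    have hg' : ∀ f : N → ℕ, ∃ k0 : ℕ, f ∈ 𝓕 → ∀ k, k0 ≤ k → f (a f k) < g (a f k) := by
      intro f
      by_cases hf : f ∈ 𝓕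
      · obtain ⟨k0, hk0⟩ := eventually_atTop.1 (hg f hf)
        exact ⟨k0, fun _ => hk0⟩
      · exact ⟨0, fun h => absurd h hf⟩
    choose K hK using hg'
    refine ⟨fun d => Sum.elim g K d, ?_⟩
    rintro (x | f) hd (y | f') he hne h
    · exact h
    · obtain ⟨k, h1, h2, h3⟩ := h
      have h4 := hK f' he k h1
      rw [h2] at h4
      exact absurd h3 (not_le.2 h4)
    · obtain ⟨k, h1, h2, h3⟩ := h
      have h4 := hK f hd k h1
      rw [h2] at h4
      exact absurd h3 (not_le.2 h4)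
    · exact h
  bad := by
    rintro ⟨h, hh⟩
    let g : N → ℕ := fun x => h (Sum.inl x)
    have h1 := hh (Sum.inl (a g (h (Sum.inr g)))) (mem_univ _) (Sum.inr g) (mem_univ _)
      (by simp)
    exact h1 ⟨h (Sum.inr g), le_rfl, rfl, le_rfl⟩

end forward

section backward

variable {D : Type} {F : D → D → ℕ → ℕ → Prop} {μ : Cardinal.{0}}

/-- subsets of size at most `μ` -/
abbrev Sm (μ : Cardinal.{0}) (D : Type) : Type := {a : Set D // #a ≤ μ}

/-- cofinally many `a` lie in `Z` -/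
def Pos (Z : Set (Sm μ D)) : Prop := ∀ a₀ : Sm μ D, ∃ a : Sm μ D, a₀.1 ⊆ a.1 ∧ a ∈ Z

theorem Pos.mono {Z Z' : Set (Sm μ D)} (h : Pos Z) (hZ : Z ⊆ Z') : Pos Z' := by
  intro a₀
  obtain ⟨a, h1, h2⟩ := h a₀
  exact ⟨a, h1, hZ h2⟩

theorem exists_union (hμ : ℵ₀ ≤ μ) (s : ℕ → Sm μ D) :
    ∃ a₀ : Sm μ D, ∀ n, (s n).1 ⊆ a₀.1 := by
  refine ⟨⟨⋃ n, (s n).1, ?_⟩, fun n => subset_iUnion (fun n => (s n).1) n⟩
  have h1 : #(⋃ n, (s n).1) ≤ Cardinal.sum fun n => #((s n).1) := mk_iUnion_le_sum_mk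
  refine h1.trans ?_
  refine (Cardinal.sum_le_sum _ (fun _ => μ) (fun n => (s n).2)).trans ?_
  rw [Cardinal.sum_const]
  simp only [mk_eq_aleph0, lift_id]
  exact Cardinal.mul_le_of_le hμ hμ le_rfl

/-- a positive set which is an increasing countable union has a positive member -/
theorem Pos.exists_of_union (hμ : ℵ₀ ≤ μ) {Z : Set (Sm μ D)} (h : Pos Z)
    (W : ℕ → Set (Sm μ D)) (hW : Z ⊆ ⋃ n, W n) : ∃ n, Pos (W n) := by
  by_contra hcon
  push Not at hcon
  have h1 : ∀ n, ∃ a₀ : Sm μ D, ∀ a : Sm μ D, a₀.1 ⊆ a.1 → a ∉ W n := by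
    intro n
    have := hcon n
    unfold Pos at this
    push Not at this
    exact this
  choose a₀ ha₀ using h1
  obtain ⟨b, hb⟩ := exists_union hμ a₀
  obtain ⟨a, hba, ha⟩ := h b
  obtain ⟨n, hn⟩ := mem_iUnion.1 (hW ha)
  exact ha₀ n a ((hb n).trans hba) hn

theorem Pos.univ : Pos (Set.univ : Set (Sm μ D)) := fun a₀ => ⟨a₀, subset_rfl, mem_univ _⟩

/-- The key recursion. -/
theorem exists_linked (hμ : ℵ₀ ≤ μ) (f : (Sm μ D → ℕ) → ℕ)
    (H : ∀ s : ℕ → (Sm μ D → ℕ), Function.Injective s →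
      Pos {a : Sm μ D | ∃ᶠ k in atTop, s k a ≤ f (s k)}) :
    ∃ f' : (Sm μ D → ℕ) → ℕ, ∀ φ ψ : Sm μ D → ℕ,
      Pos {a : Sm μ D | φ a ≤ f' φ ∧ ψ a ≤ f' ψ} := by
  classical
  have hself : ∀ φ : Sm μ D → ℕ, ∃ n₀, ∀ n, n₀ ≤ n → Pos {a : Sm μ D | φ a ≤ n} := by
    intro φ
    obtain ⟨n₀, hn₀⟩ := Pos.exists_of_union hμ (Pos.univ (μ := μ) (D := D))
      (fun n => {a : Sm μ D | φ a ≤ n}) (fun a _ => mem_iUnion.2 ⟨φ a, le_refl (φ a)⟩)
    exact ⟨n₀, fun n hn => hn₀.mono (fun a ha => le_trans ha hn)⟩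
  choose n₀ hn₀ using hself
  let r : (Sm μ D → ℕ) → (Sm μ D → ℕ) → Prop := WellOrderingRel
  have wf : WellFounded r := WellOrderingRel.isWellOrder.wf
  -- the recursion
  let P : (φ : Sm μ D → ℕ) → ((ψ : Sm μ D → ℕ) → r ψ φ → ℕ) → ℕ → Prop :=
    fun φ rec n => max (f φ) (n₀ φ) ≤ n ∧
      ∀ ψ (h : r ψ φ), Pos {a : Sm μ D | φ a ≤ n ∧ ψ a ≤ rec ψ h}
  let step : (φ : Sm μ D → ℕ) → ((ψ : Sm μ D → ℕ) → r ψ φ → ℕ) → ℕ :=
    fun φ rec => if h : ∃ n, P φ rec n then Nat.find h else max (f φ) (n₀ φ)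
  let f' : (Sm μ D → ℕ) → ℕ := wf.fix step
  have hf' : ∀ φ, f' φ = step φ (fun ψ _ => f' ψ) := fun φ => wf.fix_eq step φ
  have hge : ∀ φ, max (f φ) (n₀ φ) ≤ f' φ := by
    intro φ
    rw [hf' φ]
    by_cases h : ∃ n, P φ (fun ψ _ => f' ψ) n
    · have : step φ (fun ψ _ => f' ψ) = Nat.find h := dif_pos h
      rw [this]
      exact (Nat.find_spec h).1
    · have : step φ (fun ψ _ => f' ψ) = max (f φ) (n₀ φ) := dif_neg h
      rw [this]
  have hex : ∀ φ, ∃ n, P φ (fun ψ _ => f' ψ) n := by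
    intro φ
    by_contra hcon
    push Not at hcon
    have h1 : ∀ n, max (f φ) (n₀ φ) ≤ n →
        ∃ ψ, ¬ Pos {a : Sm μ D | φ a ≤ n ∧ ψ a ≤ f' ψ} := by
      intro n hn
      have h2 := hcon n
      by_contra h3
      push Not at h3
      exact h2 ⟨hn, fun ψ _ => h3 ψ⟩
    have h4 : ∀ n, ∃ ψ, ∃ a₀ : Sm μ D, max (f φ) (n₀ φ) ≤ n →
        ∀ a : Sm μ D, a₀.1 ⊆ a.1 → φ a ≤ n → f' ψ < ψ a := by
      intro n
      by_cases hn : max (f φ) (n₀ φ) ≤ n
      · obtain ⟨ψ, hψ⟩ := h1 n hn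
        unfold Pos at hψ
        push Not at hψ
        obtain ⟨a₀, ha₀⟩ := hψ
        refine ⟨ψ, a₀, fun _ a ha hφ => ?_⟩
        by_contra h5
        exact ha₀ a ha ⟨hφ, not_lt.1 h5⟩
      · exact ⟨φ, ⟨∅, by simp⟩, fun h => absurd h hn⟩
    choose s a₀ hs using h4
    obtain ⟨b, hb⟩ := exists_union hμ a₀
    -- either `s` takes infinitely many values or one value infinitely often
    by_cases hfin : (range s).Infinite
    · -- an injective subsequence
      have hsub : ∃ θ : ℕ → ℕ, StrictMono θ ∧ Function.Injective (s ∘ θ) := by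
        have hstep : ∀ (t : Finset (Sm μ D → ℕ)) (m : ℕ), ∃ n, m < n ∧ s n ∉ t := by
          intro t m
          by_contra hcon2
          push Not at hcon2
          apply hfin
          have : range s ⊆ (s '' (Iic m)) ∪ ↑t := by
            rintro _ ⟨n, rfl⟩
            by_cases hn : n ≤ m
            · exact Or.inl ⟨n, hn, rfl⟩
            · exact Or.inr (hcon2 n (not_le.1 hn))
          exact ((finite_Iic m).image s |>.union t.finite_toSet).subset this
        choose nx hnx using hstep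
        let st : ℕ → ℕ × Finset (Sm μ D → ℕ) := fun j =>
          Nat.rec (0, {s 0}) (fun _ p => (nx p.2 p.1, insert (s (nx p.2 p.1)) p.2)) j
        have hst : ∀ j, st (j + 1) = (nx (st j).2 (st j).1,
            insert (s (nx (st j).2 (st j).1)) (st j).2) := fun j => rfl
        have hmem : ∀ j i, i ≤ j → s (st i).1 ∈ (st j).2 := by
          intro j
          induction j with
          | zero =>
            intro i hi
            have : i = 0 := by omega
            subst this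
            exact Finset.mem_singleton_self _
          | succ j ih =>
            intro i hi
            rw [hst j]
            rcases Nat.lt_or_ge i (j + 1) with h | h
            · exact Finset.mem_insert_of_mem (ih i (by omega))
            · have : i = j + 1 := by omega
              subst this
              rw [hst j]
              exact Finset.mem_insert_self _ _
        refine ⟨fun j => (st j).1, ?_, ?_⟩
        · refine strictMono_nat_of_lt_succ (fun j => ?_)
          rw [hst j]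
          exact (hnx _ _).1
        · have hlt : ∀ i j, i < j → s (st i).1 ≠ s (st j).1 := by
            intro i j hij h
            obtain ⟨j', rfl⟩ : ∃ j', j = j' + 1 := ⟨j - 1, by omega⟩
            have h1 := hmem j' i (by omega)
            rw [h, hst j'] at h1
            exact (hnx _ _).2 h1
          intro i j hij
          rcases Nat.lt_trichotomy i j with h | h | h
          · exact absurd hij (hlt i j h)
          · exact h
          · exact absurd hij.symm (hlt j i h)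
      obtain ⟨θ, hθ, hinj⟩ := hsub
      obtain ⟨a, hba, ha⟩ := H (s ∘ θ) hinj b
      have ha' : ∃ᶠ k in atTop, s (θ k) a ≤ f (s (θ k)) := ha
      obtain ⟨k, hk1, hk2⟩ := (ha'.and_eventually
        (eventually_ge_atTop (max (max (f φ) (n₀ φ)) (φ a)))).exists
      have hk3 : k ≤ θ k := hθ.id_le k
      have h5 := hs (θ k) (((le_max_left _ _).trans hk2).trans hk3) a ((hb _).trans hba)
        (((le_max_right _ _).trans hk2).trans hk3)
      exact absurd (hk1.trans ((le_max_left _ _).trans (hge _))) (not_le.2 h5)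
    · -- one value infinitely often
      rw [not_infinite] at hfin
      have hval : ∃ ψ, {n | s n = ψ}.Infinite := by
        by_contra hcon2
        push Not at hcon2
        have hU : (Set.univ : Set ℕ) ⊆ ⋃ ψ ∈ range s, {n | s n = ψ} := by
          intro n _
          exact mem_biUnion (mem_range_self n) rfl
        have : (Set.univ : Set ℕ).Finite :=
          (hfin.biUnion (fun ψ _ => hcon2 ψ)).subset hU
        exact Set.infinite_univ this
      obtain ⟨ψ, hψ⟩ := hval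
      obtain ⟨a, hba, ha⟩ := hn₀ ψ (f' ψ) ((le_max_right _ _).trans (hge ψ)) b
      obtain ⟨n, hn1, hn2⟩ := hψ.exists_gt (max (max (f φ) (n₀ φ)) (φ a))
      have hn1' : s n = ψ := hn1
      have h5 := hs n ((le_max_left _ _).trans hn2.le) a ((hb _).trans hba)
        ((le_max_right _ _).trans hn2.le)
      rw [hn1'] at h5
      exact absurd ha (not_le.2 h5)
  have hP : ∀ φ, P φ (fun ψ _ => f' ψ) (f' φ) := by
    intro φ
    have : f' φ = Nat.find (hex φ) := by
      rw [hf' φ]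
      exact dif_pos (hex φ)
    rw [this]
    exact Nat.find_spec (hex φ)
  refine ⟨f', fun φ ψ => ?_⟩
  have htri : r φ ψ ∨ φ = ψ ∨ r ψ φ := by
    have : IsWellOrder (Sm μ D → ℕ) r := WellOrderingRel.isWellOrder
    exact trichotomous_of r φ ψ
  rcases htri with h | h | h
  · refine ((hP ψ).2 φ h).mono ?_
    intro a ha
    exact ⟨ha.2, ha.1⟩
  · subst h
    refine (hn₀ φ (f' φ) ((le_max_right _ _).trans (hge φ))).mono ?_
    intro a ha
    exact ⟨ha, ha⟩
  · exact (hP φ).2 ψ h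

theorem seqDom_of_bad (hμ : ℵ₀ ≤ μ) (hF : BadSystem μ F) : SeqDom μ (Sm μ D → ℕ) := by
  classical
  -- every `f` has a sequence
  have key : ∀ f : (Sm μ D → ℕ) → ℕ, ∃ s : ℕ → (Sm μ D → ℕ), Function.Injective s ∧
      ∃ a₀ : Sm μ D, ∀ a : Sm μ D, a₀.1 ⊆ a.1 → ∀ᶠ k in atTop, f (s k) < s k a := by
    intro f
    by_contra hcon
    push Not at hcon
    have H : ∀ s : ℕ → (Sm μ D → ℕ), Function.Injective s →
        Pos {a : Sm μ D | ∃ᶠ k in atTop, s k a ≤ f (s k)} := by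
      intro s hs a₀
      obtain ⟨a, h1, h2⟩ := hcon s hs a₀
      exact ⟨a, h1, h2⟩
    obtain ⟨f', hf'⟩ := exists_linked hμ f H
    choose G hG using hF.small
    refine hF.bad ⟨fun d => f' (fun a => G a.1 a.2 d), ?_⟩
    intro d _ e _ hde hFde
    have hsz : #({d, e} : Set D) ≤ μ := by
      refine le_trans ?_ hμ
      exact (Cardinal.lt_aleph0_of_finite _).le
    obtain ⟨a, ha1, ha2⟩ := hf' (fun a => G a.1 a.2 d) (fun a => G a.1 a.2 e) ⟨{d, e}, hsz⟩
    exact hG a.1 a.2 d (ha1 (by simp)) e (ha1 (by simp)) hde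
      (hF.down d e _ _ _ _ hFde ha2.1 ha2.2)
  choose s hinj a₀ hs using key
  refine ⟨s, hinj, fun 𝓕 h𝓕 => ?_⟩
  have hU : #(⋃ f : 𝓕, (a₀ f.1).1) ≤ μ := by
    have h1 : #(⋃ f : 𝓕, (a₀ f.1).1) ≤ Cardinal.sum fun f : 𝓕 => #((a₀ f.1).1) :=
      mk_iUnion_le_sum_mk
    refine h1.trans ?_
    refine (Cardinal.sum_le_sum _ (fun _ => μ) (fun f : 𝓕 => (a₀ f.1).2)).trans ?_
    rw [Cardinal.sum_const]
    simp only [lift_id]
    exact Cardinal.mul_le_of_le hμ h𝓕 le_rfl
  refine ⟨fun φ => φ ⟨_, hU⟩, fun f hf => ?_⟩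
  exact hs f ⟨_, hU⟩ (subset_iUnion (fun f : 𝓕 => (a₀ f.1).1) ⟨f, hf⟩)

end backward

end Pool.Agent.H93.Cwh
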