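import Mathlib

/-! Collectionwise Hausdorff spaces. -/

namespace Pool.Agent.H93.Cwh

open Cardinal

/-- `X` is `κ`-collectionwise Hausdorff: the points of every closed discrete subset of
cardinality at most `κ` have pairwise disjoint open neighbourhoods. -/
def IsCWH (κ : Cardinal.{0}) (X : Type) [TopologicalSpace X] : Prop :=
  ∀ D : Set X, IsClosed D → DiscreteTopology D → #D ≤ κ →
    ∃ U : X → Set X, (∀ x ∈ D, IsOpen (U x) ∧ x ∈ U x) ∧
      ∀ x ∈ D, ∀ y ∈ D, x ≠ y → Disjoint (U x) (U y)

end Pool.Agent.H93.Cwh
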