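import Mathlib
import Pool.Agent.H93.Cwh.Comb
import Pool.Agent.H93.Cwh.Defs

/-! From pair systems to first countable spaces and back. -/

namespace Pool.Agent.H93.Cwh

open Cardinal Set Topology Filter

section space

variable {D : Type} (F : D → D → ℕ → ℕ → Prop)

/-- the isolated points -/
abbrev Iso : Type := {p : (D × ℕ) × (D × ℕ) // p.1.1 ≠ p.2.1 ∧ F p.1.1 p.2.1 p.1.2 p.2.2}

/-- the carrier of the space of a pair system -/
inductive Fan : Type
  | pt : D → Fan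
  | iso : Iso F → Fan

variable {F}

/-- basic neighbourhoods -/
def V (d : D) (k : ℕ) : Set (Fan F) :=
  {x | (x = Fan.pt d) ∨ ∃ p : Iso F, x = Fan.iso p ∧
    ((p.1.1.1 = d ∧ k ≤ p.1.1.2) ∨ (p.1.2.1 = d ∧ k ≤ p.1.2.2))}

theorem inl_mem_V {d e : D} {k : ℕ} : (Fan.pt e : Fan F) ∈ (V d k : Set (Fan F)) ↔ e = d := by
  constructor
  · rintro (h | ⟨p, h, -⟩)
    · exact Fan.pt.inj h
    · exact absurd h (by simp)
  · rintro rfl
    exact Or.inl rfl

theorem inr_mem_V {d : D} {k : ℕ} {p : Iso F} : (Fan.iso p : Fan F) ∈ (V d k : Set (Fan F)) ↔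
    ((p.1.1.1 = d ∧ k ≤ p.1.1.2) ∨ (p.1.2.1 = d ∧ k ≤ p.1.2.2)) := by
  constructor
  · rintro (h | ⟨q, h, hq⟩)
    · exact absurd h (by simp)
    · have : p = q := Fan.iso.inj h
      rw [this]
      exact hq
  · intro h
    exact Or.inr ⟨p, rfl, h⟩

theorem V_anti {d : D} {k l : ℕ} (h : k ≤ l) : (V d l : Set (Fan F)) ⊆ V d k := by
  rintro x (rfl | ⟨p, rfl, hp⟩)
  · exact Or.inl rfl
  · refine Or.inr ⟨p, rfl, ?_⟩
    rcases hp with ⟨h1, h2⟩ | ⟨h1, h2⟩
    · exact Or.inl ⟨h1, h.trans h2⟩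
    · exact Or.inr ⟨h1, h.trans h2⟩

instance : TopologicalSpace (Fan F) where
  IsOpen U := ∀ d : D, (Fan.pt d : Fan F) ∈ U → ∃ k, (V d k : Set (Fan F)) ⊆ U
  isOpen_univ := fun d _ => ⟨0, subset_univ _⟩
  isOpen_inter := by
    intro s t hs ht d hd
    obtain ⟨k, hk⟩ := hs d hd.1
    obtain ⟨l, hl⟩ := ht d hd.2
    exact ⟨max k l, subset_inter ((V_anti (le_max_left _ _)).trans hk)
      ((V_anti (le_max_right _ _)).trans hl)⟩
  isOpen_sUnion := by
    intro s hs d hd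
    obtain ⟨t, ht, hdt⟩ := hd
    obtain ⟨k, hk⟩ := hs t ht d hdt
    exact ⟨k, hk.trans (subset_sUnion_of_mem ht)⟩

theorem isOpen_def {U : Set (Fan F)} :
    IsOpen U ↔ ∀ d : D, (Fan.pt d : Fan F) ∈ U → ∃ k, (V d k : Set (Fan F)) ⊆ U := Iff.rfl

theorem isOpen_V (d : D) (k : ℕ) : IsOpen (V d k : Set (Fan F)) := by
  rw [isOpen_def]
  intro e he
  rw [inl_mem_V] at he
  subst he
  exact ⟨k, subset_rfl⟩

theorem isOpen_of_inr {U : Set (Fan F)} (h : ∀ d : D, (Fan.pt d : Fan F) ∉ U) : IsOpen U := by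
  rw [isOpen_def]
  intro d hd
  exact absurd hd (h d)

theorem isOpen_singleton_inr (p : Iso F) : IsOpen ({Fan.iso p} : Set (Fan F)) :=
  isOpen_of_inr (fun d hd => by simp at hd)

theorem nhds_inl (d : D) :
    (𝓝 (Fan.pt d : Fan F)).HasBasis (fun _ : ℕ => True) (fun k => (V d k : Set (Fan F))) := by
  refine ⟨fun t => ?_⟩
  rw [mem_nhds_iff]
  constructor
  · rintro ⟨u, hut, hu, hd⟩
    obtain ⟨k, hk⟩ := hu d hd
    exact ⟨k, trivial, hk.trans hut⟩
  · rintro ⟨k, -, hk⟩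
    exact ⟨V d k, hk, isOpen_V d k, inl_mem_V.2 rfl⟩

instance : FirstCountableTopology (Fan F) where
  nhds_generated_countable := by
    rintro (d | p)
    · exact (nhds_inl d).isCountablyGenerated
    · have h1 : 𝓝 (Fan.iso p : Fan F) = pure (Fan.iso p : Fan F) :=
        (isOpen_singleton_iff_nhds_eq_pure _).1 (isOpen_singleton_inr p)
      have : (𝓝 (Fan.iso p : Fan F)).IsCountablyGenerated := by
        rw [h1]
        infer_instance
      exact this

theorem V_disjoint (hs : ∀ d e m n, F d e m n → F e d n m)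
    (hd : ∀ d e m n m' n', F d e m n → m' ≤ m → n' ≤ n → F d e m' n')
    {d e : D} (hde : d ≠ e) {k l : ℕ} (h : ¬ F d e k l) :
    Disjoint (V d k : Set (Fan F)) (V e l) := by
  rw [Set.disjoint_left]
  rintro (c | p) h1 h2
  · rw [inl_mem_V] at h1 h2
    exact hde (h1.symm.trans h2)
  · rw [inr_mem_V] at h1 h2
    obtain ⟨hp1, hp2⟩ := p.2
    rcases h1 with ⟨h1, h1'⟩ | ⟨h1, h1'⟩
    · rcases h2 with ⟨h2, h2'⟩ | ⟨h2, h2'⟩
      · exact hde (h1.symm.trans h2)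
      · rw [h1, h2] at hp2
        exact h (hd _ _ _ _ _ _ hp2 h1' h2')
    · rcases h2 with ⟨h2, h2'⟩ | ⟨h2, h2'⟩
      · rw [h1, h2] at hp2
        exact h (hd _ _ _ _ _ _ (hs _ _ _ _ hp2) h1' h2')
      · exact hde (h1.symm.trans h2)

theorem not_F_of_disjoint {d e : D} (hde : d ≠ e) {k l : ℕ}
    (h : Disjoint (V d k : Set (Fan F)) (V e l)) : ¬ F d e k l := by
  intro hF
  have h1 : (Fan.iso ⟨((d, k), (e, l)), hde, hF⟩ : Fan F) ∈ (V d k : Set (Fan F)) :=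
    inr_mem_V.2 (Or.inl ⟨rfl, le_rfl⟩)
  have h2 : (Fan.iso ⟨((d, k), (e, l)), hde, hF⟩ : Fan F) ∈ (V e l : Set (Fan F)) :=
    inr_mem_V.2 (Or.inr ⟨rfl, le_rfl⟩)
  exact (Set.disjoint_left.1 h) h1 h2

theorem isClosed_of_inl_compl {C : Set (Fan F)}
    (h : ∀ d : D, (Fan.pt d : Fan F) ∉ C → ∃ k, Disjoint (V d k : Set (Fan F)) C) :
    IsClosed C := by
  rw [← isOpen_compl_iff, isOpen_def]
  intro d hd
  obtain ⟨k, hk⟩ := h d hd
  exact ⟨k, fun x hx hxC => (Set.disjoint_left.1 hk) hx hxC⟩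

theorem isClosed_V (hs : ∀ d e m n, F d e m n → F e d n m)
    (hd : ∀ d e m n m' n', F d e m n → m' ≤ m → n' ≤ n → F d e m' n')
    (hr : ∀ d e m, ∃ n, ¬ F d e m n) (d : D) (k : ℕ) : IsClosed (V d k : Set (Fan F)) := by
  refine isClosed_of_inl_compl (fun e he => ?_)
  have hne : e ≠ d := fun h => he (inl_mem_V.2 h)
  obtain ⟨n, hn⟩ := hr d e k
  exact ⟨n, (V_disjoint hs hd hne.symm hn).symm⟩

theorem isClosed_singleton_inr (p : Iso F) : IsClosed ({Fan.iso p} : Set (Fan F)) := by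
  refine isClosed_of_inl_compl (fun e _ => ?_)
  refine ⟨max p.1.1.2 p.1.2.2 + 1, ?_⟩
  rw [Set.disjoint_left]
  rintro x h1 h2
  rw [mem_singleton_iff] at h2
  subst h2
  rw [inr_mem_V] at h1
  rcases h1 with ⟨-, h⟩ | ⟨-, h⟩
  · have := le_max_left p.1.1.2 p.1.2.2
    omega
  · have := le_max_right p.1.1.2 p.1.2.2
    omega

theorem clopen_basis (hs : ∀ d e m n, F d e m n → F e d n m)
    (hd : ∀ d e m n m' n', F d e m n → m' ≤ m → n' ≤ n → F d e m' n')
    (hr : ∀ d e m, ∃ n, ¬ F d e m n) :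
    TopologicalSpace.IsTopologicalBasis {s : Set (Fan F) | IsClopen s} := by
  refine TopologicalSpace.isTopologicalBasis_of_isOpen_of_nhds (fun u hu => hu.2) ?_
  rintro (d | p) u hx hu
  · obtain ⟨k, hk⟩ := hu d hx
    exact ⟨V d k, ⟨isClosed_V hs hd hr d k, isOpen_V d k⟩, inl_mem_V.2 rfl, hk⟩
  · refine ⟨{Fan.iso p}, ⟨isClosed_singleton_inr p, isOpen_singleton_inr p⟩, rfl, ?_⟩
    rintro _ rfl
    exact hx

theorem t2 (hs : ∀ d e m n, F d e m n → F e d n m)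
    (hd : ∀ d e m n m' n', F d e m n → m' ≤ m → n' ≤ n → F d e m' n')
    (hr : ∀ d e m, ∃ n, ¬ F d e m n) : T2Space (Fan F) := by
  refine ⟨?_⟩
  have hcl : ∀ x y : Fan F, x ≠ y → (∃ u : Set (Fan F), IsClopen u ∧ x ∈ u ∧ y ∉ u) →
      ∃ u v : Set (Fan F), IsOpen u ∧ IsOpen v ∧ x ∈ u ∧ y ∈ v ∧ Disjoint u v := by
    rintro x y - ⟨u, hu, hx, hy⟩
    exact ⟨u, uᶜ, hu.2, hu.1.isOpen_compl, hx, hy, disjoint_compl_right⟩
  rintro (d | p) (e | q) hne
  · refine hcl _ _ hne ⟨V d 0, ⟨isClosed_V hs hd hr d 0, isOpen_V d 0⟩, inl_mem_V.2 rfl, ?_⟩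
    rw [inl_mem_V]
    rintro rfl
    exact hne rfl
  · obtain ⟨u, v, h1, h2, h3, h4, h5⟩ := hcl (Fan.iso q) (Fan.pt d) hne.symm
      ⟨{Fan.iso q}, ⟨isClosed_singleton_inr q, isOpen_singleton_inr q⟩, rfl, by simp⟩
    exact ⟨v, u, h2, h1, h4, h3, h5.symm⟩
  · exact hcl _ _ hne
      ⟨{Fan.iso p}, ⟨isClosed_singleton_inr p, isOpen_singleton_inr p⟩, rfl, by simp⟩
  · refine hcl _ _ hne
      ⟨{Fan.iso p}, ⟨isClosed_singleton_inr p, isOpen_singleton_inr p⟩, rfl, ?_⟩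
    intro h
    exact hne (mem_singleton_iff.1 h).symm

theorem isCWH_fan {μ : Cardinal.{0}} (hF : BadSystem μ F) : IsCWH μ (Fan F) := by
  classical
  intro A hA hAd hAμ
  let S : Set D := {d | (Fan.pt d : Fan F) ∈ A}
  have hS : #S ≤ μ := by
    refine le_trans ?_ hAμ
    refine Cardinal.mk_le_of_injective (f := fun d : S => (⟨Fan.pt d.1, d.2⟩ : A)) ?_
    intro d e h
    have h1 : (Fan.pt d.1 : Fan F) = Fan.pt e.1 := congrArg Subtype.val h
    exact Subtype.ext (Fan.pt.inj h1)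
  obtain ⟨f, hf⟩ := hF.small S hS
  -- neighbourhoods missing the rest of `A`
  have hk : ∀ d : D, ∃ k, d ∈ S → ∀ x ∈ (V d k : Set (Fan F)), x ∈ A → x = Fan.pt d := by
    intro d
    by_cases hd : d ∈ S
    · have h1 : IsOpen ({⟨Fan.pt d, hd⟩} : Set A) := isOpen_discrete _
      obtain ⟨u, hu, hu2⟩ := isOpen_induced_iff.1 h1
      have h2 : (Fan.pt d : Fan F) ∈ u := by
        have : (⟨Fan.pt d, hd⟩ : A) ∈ Subtype.val ⁻¹' u := by
          rw [hu2]
          exact mem_singleton _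
        exact this
      obtain ⟨k, hk⟩ := hu d h2
      refine ⟨k, fun _ x hx hxA => ?_⟩
      have h3 : (⟨x, hxA⟩ : A) ∈ Subtype.val ⁻¹' u := hk hx
      rw [hu2] at h3
      exact congrArg Subtype.val (mem_singleton_iff.1 h3)
    · exact ⟨0, fun h => absurd h hd⟩
  choose K hK using hk
  let U : Fan F → Set (Fan F) := fun x => match x with
    | Fan.pt d => (V d (max (f d) (K d)) : Set (Fan F))
    | Fan.iso p => {Fan.iso p}
  refine ⟨U, ?_, ?_⟩
  · rintro (d | p) _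
    · exact ⟨isOpen_V _ _, inl_mem_V.2 rfl⟩
    · exact ⟨isOpen_singleton_inr p, rfl⟩
  · rintro (d | p) hx (e | q) hy hne
    · have hde : d ≠ e := fun h => hne (by rw [h])
      have h1 := hf d hx e hy hde
      have h2 : ¬ F d e (max (f d) (K d)) (max (f e) (K e)) := fun h =>
        h1 (hF.down _ _ _ _ _ _ h (le_max_left _ _) (le_max_left _ _))
      exact V_disjoint hF.symm hF.down hde h2
    · refine Set.disjoint_left.2 ?_
      intro x h1 h2
      have h3 : x = Fan.iso q := h2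
      rw [h3] at h1
      have h4 := hK d hx (Fan.iso q) (V_anti (le_max_right _ _) h1) hy
      exact absurd h4 (by simp)
    · refine Set.disjoint_left.2 ?_
      intro x h1 h2
      have h3 : x = Fan.iso p := h1
      rw [h3] at h2
      have h4 := hK e hy (Fan.iso p) (V_anti (le_max_right _ _) h2) hx
      exact absurd h4 (by simp)
    · refine Set.disjoint_left.2 ?_
      intro x h1 h2
      have h3 : x = Fan.iso p := h1
      have h4 : x = Fan.iso q := h2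
      exact hne (h3.symm.trans h4)

theorem not_isCWH_fan {μ : Cardinal.{0}} (hF : BadSystem μ F) : ¬ IsCWH #D (Fan F) := by
  classical
  intro h
  have hcl : IsClosed (range (Fan.pt : D → Fan F)) := by
    rw [← isOpen_compl_iff]
    refine isOpen_of_inr (fun d hd => hd ⟨d, rfl⟩)
  have hdis : DiscreteTopology (range (Fan.pt : D → Fan F)) := by
    rw [discreteTopology_iff_isOpen_singleton]
    rintro ⟨_, d, rfl⟩
    refine isOpen_induced_iff.2 ⟨V d 0, isOpen_V d 0, ?_⟩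
    ext ⟨_, e, rfl⟩
    simp only [mem_preimage, mem_singleton_iff]
    rw [inl_mem_V]
    constructor
    · rintro rfl
      rfl
    · exact fun h => Fan.pt.inj (congrArg Subtype.val h)
  obtain ⟨U, hU1, hU2⟩ := h _ hcl hdis mk_range_le
  have h1 : ∀ d : D, ∃ k, (V d k : Set (Fan F)) ⊆ U (Fan.pt d) := fun d =>
    (hU1 (Fan.pt d) ⟨d, rfl⟩).1 d (hU1 (Fan.pt d) ⟨d, rfl⟩).2
  choose f hf using h1
  refine hF.bad ⟨f, fun d _ e _ hde => ?_⟩
  refine not_F_of_disjoint hde ?_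
  exact (hU2 (Fan.pt d) ⟨d, rfl⟩ (Fan.pt e) ⟨e, rfl⟩
    (fun h => hde (Fan.pt.inj h))).mono (hf d) (hf e)

end space

section extract

variable {X : Type} [TopologicalSpace X] [FirstCountableTopology X]

theorem exists_open_basis (x : X) : ∃ W : ℕ → Set X, (∀ n, IsOpen (W n)) ∧ (∀ n, x ∈ W n) ∧
    (∀ m n, m ≤ n → W n ⊆ W m) ∧ ∀ u : Set X, IsOpen u → x ∈ u → ∃ n, W n ⊆ u := by
  obtain ⟨s, hs⟩ := (𝓝 x).exists_antitone_basis
  refine ⟨fun n => interior (s n), fun n => isOpen_interior, fun n => ?_, ?_, ?_⟩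
  · exact mem_interior_iff_mem_nhds.2 (hs.1.mem_of_mem trivial)
  · exact fun m n hmn => interior_mono (hs.2 hmn)
  · intro u hu hx
    obtain ⟨n, -, hn⟩ := hs.1.mem_iff.1 (hu.mem_nhds hx)
    exact ⟨n, interior_subset.trans hn⟩

theorem exists_badSystem {μ : Cardinal.{0}} (hX : IsCWH μ X) {κ : Cardinal.{0}}
    (hκ : ¬ IsCWH κ X) : ∃ (D : Type) (F : D → D → ℕ → ℕ → Prop), BadSystem μ F := by
  classical
  unfold IsCWH at hκ
  push Not at hκ
  obtain ⟨A, hA, hAd, -, hbad⟩ := hκ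
  choose W hW1 hW2 hW3 hW4 using fun x : X => exists_open_basis x
  let F : A → A → ℕ → ℕ → Prop := fun d e m n => (W d m ∩ W e n).Nonempty
  refine ⟨A, F, ?_, ?_, ?_, ?_⟩
  · intro d e m n h
    have : (W d m ∩ W e n).Nonempty := h
    rw [inter_comm] at this
    exact this
  · intro d e m n m' n' h hm hn
    exact Set.Nonempty.mono (inter_subset_inter (hW3 _ _ _ hm) (hW3 _ _ _ hn)) h
  · intro S hS
    let S' : Set X := Subtype.val '' S
    have hS'A : S' ⊆ A := by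
      rintro _ ⟨d, -, rfl⟩
      exact d.2
    have hcl : IsClosed S' := by
      have h1 : IsClosed S := isClosed_discrete S
      exact hA.isClosedMap_subtype_val S h1
    have hdis : DiscreteTopology S' := DiscreteTopology.of_subset hAd hS'A
    have hcard : #S' ≤ μ := mk_image_le.trans hS
    obtain ⟨U, hU1, hU2⟩ := hX S' hcl hdis hcard
    have h2 : ∀ d : A, ∃ k, d ∈ S → W d k ⊆ U d := by
      intro d
      by_cases hd : d ∈ S
      · obtain ⟨k, hk⟩ := hW4 d (U d) (hU1 d ⟨d, hd, rfl⟩).1 (hU1 d ⟨d, hd, rfl⟩).2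
        exact ⟨k, fun _ => hk⟩
      · exact ⟨0, fun h => absurd h hd⟩
    choose f hf using h2
    refine ⟨f, fun d hd e he hde => ?_⟩
    have h3 := hU2 d ⟨d, hd, rfl⟩ e ⟨e, he, rfl⟩ (fun h => hde (Subtype.ext h))
    intro h4
    obtain ⟨x, hx1, hx2⟩ := (h4 : (W d (f d) ∩ W e (f e)).Nonempty)
    exact (Set.disjoint_left.1 h3) (hf d hd hx1) (hf e he hx2)
  · rintro ⟨f, hf⟩
    let U : X → Set X := fun x => if h : x ∈ A then W x (f ⟨x, h⟩) else ∅
    have hU : ∀ x (h : x ∈ A), U x = W x (f ⟨x, h⟩) := fun x h => dif_pos h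
    obtain ⟨x, hx, y, hy, hxy, hnd⟩ := hbad U (fun x hx => by
      rw [hU x hx]
      exact ⟨hW1 _ _, hW2 _ _⟩)
    apply hnd
    rw [hU x hx, hU y hy, Set.disjoint_iff_inter_eq_empty]
    by_contra hne
    exact hf ⟨x, hx⟩ (mem_univ _) ⟨y, hy⟩ (mem_univ _) (fun h => hxy (congrArg Subtype.val h))
      (Set.nonempty_iff_ne_empty.2 hne)

end extract

end Pool.Agent.H93.Cwh
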