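import Mathlib

/-! The combinatorial core: branches through a tree of height and size `ω₁`.
Branches are subsets of a well-ordered set `Ω` all of whose proper initial segments are
countable. -/

namespace Pool.Agent.H93.Cwh

open Set Filter

section core

variable {Ω : Type} [LinearOrder Ω]

/-- `g` and `h` agree below `δ` -/
def Agr (δ : Ω) (g h : Set Ω) : Prop := ∀ η, η < δ → (η ∈ g ↔ η ∈ h)

theorem Agr.refl (δ : Ω) (g : Set Ω) : Agr δ g g := fun _ _ => Iff.rfl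

theorem Agr.symm {δ : Ω} {g h : Set Ω} (H : Agr δ g h) : Agr δ h g := fun η hη => (H η hη).symm

theorem Agr.trans {δ : Ω} {g h k : Set Ω} (H : Agr δ g h) (H' : Agr δ h k) : Agr δ g k :=
  fun η hη => (H η hη).trans (H' η hη)

theorem Agr.mono {δ δ' : Ω} {g h : Set Ω} (H : Agr δ g h) (hδ : δ' ≤ δ) : Agr δ' g h :=
  fun η hη => H η (hη.trans_le hδ)

variable [WellFoundedLT Ω] [Nonempty Ω]

open Classical in
/-- least level at which `g` has left every member of `T` -/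
noncomputable def ex (T : Set (Set Ω)) (g : Set Ω) : Ω :=
  if h : {δ : Ω | ∀ x ∈ T, ¬ Agr δ g x}.Nonempty then
    (wellFounded_lt (α := Ω)).min {δ : Ω | ∀ x ∈ T, ¬ Agr δ g x} h
  else Classical.arbitrary Ω

omit [WellFoundedLT Ω] [Nonempty Ω] in
theorem bdd_of_countable (hΩ : ∀ a : Ω, (Iio a).Countable) (hunc : ¬ (univ : Set Ω).Countable)
    {A : Set Ω} (hA : A.Countable) : ∃ b : Ω, ∀ a ∈ A, a < b := by
  by_contra hcon
  push Not at hcon
  apply hunc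
  have hsub : (univ : Set Ω) ⊆ ⋃ a ∈ A, insert a (Iio a) := by
    intro b _
    obtain ⟨a, ha, hba⟩ := hcon b
    rcases hba.lt_or_eq with h | h
    · exact mem_biUnion ha (Or.inr h)
    · exact mem_biUnion ha (Or.inl h)
  exact (hA.biUnion (fun a _ => (hΩ a).insert a)).mono hsub

omit [WellFoundedLT Ω] in
theorem ex_nonempty (hΩ : ∀ a : Ω, (Iio a).Countable) (hunc : ¬ (univ : Set Ω).Countable)
    {T : Set (Set Ω)} (hT : T.Countable) {g : Set Ω} (hg : g ∉ T) :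
    {δ : Ω | ∀ x ∈ T, ¬ Agr δ g x}.Nonempty := by
  have h1 : ∀ x : Set Ω, ∃ η : Ω, x ∈ T → ¬ (η ∈ g ↔ η ∈ x) := by
    intro x
    by_cases hx : x ∈ T
    · by_contra hcon
      push Not at hcon
      have : g = x := Set.ext (fun η => (hcon η).2)
      exact hg (this ▸ hx)
    · exact ⟨Classical.arbitrary Ω, fun h => absurd h hx⟩
  choose η hη using h1
  obtain ⟨b, hb⟩ := bdd_of_countable hΩ hunc (hT.image η)
  exact ⟨b, fun x hx hag => hη x hx (hag (η x) (hb _ ⟨x, hx, rfl⟩))⟩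

theorem ex_spec (hΩ : ∀ a : Ω, (Iio a).Countable) (hunc : ¬ (univ : Set Ω).Countable)
    {T : Set (Set Ω)} (hT : T.Countable) {g : Set Ω} (hg : g ∉ T) :
    ∀ x ∈ T, ¬ Agr (ex T g) g x := by
  have h := ex_nonempty hΩ hunc hT hg
  have h2 : ex T g = (wellFounded_lt (α := Ω)).min {δ : Ω | ∀ x ∈ T, ¬ Agr δ g x} h := dif_pos h
  rw [h2]
  exact (wellFounded_lt (α := Ω)).min_mem _ h

theorem ex_le (hΩ : ∀ a : Ω, (Iio a).Countable) (hunc : ¬ (univ : Set Ω).Countable)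
    {T : Set (Set Ω)} (hT : T.Countable) {g : Set Ω} (hg : g ∉ T) {δ : Ω}
    (hδ : ∀ x ∈ T, ¬ Agr δ g x) : ex T g ≤ δ := by
  have h := ex_nonempty hΩ hunc hT hg
  have h2 : ex T g = (wellFounded_lt (α := Ω)).min {δ : Ω | ∀ x ∈ T, ¬ Agr δ g x} h := dif_pos h
  rw [h2]
  exact not_lt.1 ((wellFounded_lt (α := Ω)).not_lt_min
    {δ : Ω | ∀ x ∈ T, ¬ Agr δ g x} (x := δ) hδ)

theorem ex_min (hΩ : ∀ a : Ω, (Iio a).Countable) (hunc : ¬ (univ : Set Ω).Countable)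
    {T : Set (Set Ω)} (hT : T.Countable) {g : Set Ω} (hg : g ∉ T) {δ : Ω}
    (hδ : δ < ex T g) : ∃ x ∈ T, Agr δ g x := by
  by_contra hcon
  push Not at hcon
  exact absurd (ex_le hΩ hunc hT hg hcon) (not_le.2 hδ)

theorem ex_congr (hΩ : ∀ a : Ω, (Iio a).Countable) (hunc : ¬ (univ : Set Ω).Countable)
    {T : Set (Set Ω)} (hT : T.Countable) {g h : Set Ω} (hg : g ∉ T)
    (hgh : Agr (ex T g) g h) : h ∉ T ∧ ex T h = ex T g := by
  have h1 : h ∉ T := fun hh => ex_spec hΩ hunc hT hg h hh hgh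
  refine ⟨h1, le_antisymm ?_ ?_⟩
  · refine ex_le hΩ hunc hT h1 (fun x hx hag => ?_)
    exact ex_spec hΩ hunc hT hg x hx (hgh.trans hag)
  · by_contra hlt
    rw [not_le] at hlt
    obtain ⟨x, hx, hag⟩ := ex_min hΩ hunc hT hg hlt
    exact ex_spec hΩ hunc hT h1 x hx (((hgh.mono hlt.le).symm).trans hag)

theorem ex_mono (hΩ : ∀ a : Ω, (Iio a).Countable) (hunc : ¬ (univ : Set Ω).Countable)
    {T T' : Set (Set Ω)} (hT' : T'.Countable) (hTT' : T ⊆ T') {g : Set Ω} (hg : g ∉ T') :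
    ex T g ≤ ex T' g :=
  ex_le hΩ hunc (hT'.mono hTT') (fun h => hg (hTT' h))
    (fun x hx => ex_spec hΩ hunc hT' hg x (hTT' hx))

omit [WellFoundedLT Ω] in
/-- the root of a colouring -/
theorem exists_root (hΩ : ∀ a : Ω, (Iio a).Countable) (hunc : ¬ (univ : Set Ω).Countable)
    (e : Ω → Ω → ℕ)
    (he : ∀ (β : Ω) (n : ℕ) (s : Finset Ω), (∀ γ ∈ s, γ < β ∧ e γ β ≤ n) → s.card ≤ n + 1)
    (h : Ω → ℕ) :
    ∃ n : ℕ, ∃ E : Set Ω, ¬ E.Countable ∧ (∀ α ∈ E, h α = n) ∧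
      ∃ r : ℕ → Ω, ∀ ξ : Ω, (∀ j, j ≤ n → r j ≠ ξ) → {α ∈ E | e ξ α ≤ n}.Countable := by
  classical
  have h1 : ∃ n, ¬ {α : Ω | h α = n}.Countable := by
    by_contra hcon
    push Not at hcon
    apply hunc
    refine (countable_iUnion hcon).mono ?_
    intro α _
    exact mem_iUnion.2 ⟨h α, rfl⟩
  obtain ⟨n, hn⟩ := h1
  let Q : ℕ → Prop := fun k => ∃ R : Finset Ω, R.card = k ∧
    ¬ {α : Ω | h α = n ∧ ∀ ξ ∈ R, ξ < α ∧ e ξ α ≤ n}.Countable
  have hQ0 : Q 0 := by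
    refine ⟨∅, rfl, ?_⟩
    have : {α : Ω | h α = n ∧ ∀ ξ ∈ (∅ : Finset Ω), ξ < α ∧ e ξ α ≤ n} = {α : Ω | h α = n} := by
      ext α
      simp
    rw [this]
    exact hn
  have hQb : ∀ k, Q k → k ≤ n + 1 := by
    rintro k ⟨R, rfl, hR⟩
    have hne : {α : Ω | h α = n ∧ ∀ ξ ∈ R, ξ < α ∧ e ξ α ≤ n}.Nonempty := by
      rw [Set.nonempty_iff_ne_empty]
      intro h0
      rw [h0] at hR
      exact hR countable_empty
    obtain ⟨α, -, hα⟩ := hne
    exact he α n R hα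
  have hQm : Q (Nat.findGreatest Q (n + 1)) := Nat.findGreatest_spec (Nat.zero_le _) hQ0
  obtain ⟨R, hRc, hR⟩ := hQm
  refine ⟨n, {α : Ω | h α = n ∧ ∀ ξ ∈ R, ξ < α ∧ e ξ α ≤ n}, hR, fun α hα => hα.1, ?_⟩
  have hcard : R.card ≤ n + 1 := hRc ▸ Nat.findGreatest_le _
  obtain ⟨r, hr⟩ : ∃ r : ℕ → Ω, ∀ ξ ∈ R, ∃ j, j ≤ n ∧ r j = ξ := by
    let eqv := R.equivFin
    refine ⟨fun j => if hj : j < R.card then (eqv.symm ⟨j, hj⟩ : Ω) else Classical.arbitrary Ω,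
      fun ξ hξ => ?_⟩
    refine ⟨(eqv ⟨ξ, hξ⟩ : ℕ), ?_, ?_⟩
    · have := (eqv ⟨ξ, hξ⟩).2
      omega
    · have hlt := (eqv ⟨ξ, hξ⟩).2
      simp only [hlt, dite_true]
      simp
  refine ⟨r, fun ξ hξ => ?_⟩
  have hξR : ξ ∉ R := by
    intro h
    obtain ⟨j, hj, hj'⟩ := hr ξ h
    exact hξ j hj hj'
  by_contra hcon
  -- then `insert ξ R` is larger
  have hbig : ¬ {α : Ω | h α = n ∧ ∀ ξ' ∈ insert ξ R, ξ' < α ∧ e ξ' α ≤ n}.Countable := by
    intro hc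
    apply hcon
    have hsub : {α ∈ {α : Ω | h α = n ∧ ∀ ξ ∈ R, ξ < α ∧ e ξ α ≤ n} | e ξ α ≤ n} ⊆
        insert ξ (Iio ξ) ∪ {α : Ω | h α = n ∧ ∀ ξ' ∈ insert ξ R, ξ' < α ∧ e ξ' α ≤ n} := by
      rintro α ⟨⟨hα1, hα2⟩, hα3⟩
      rcases lt_trichotomy α ξ with h | h | h
      · exact Or.inl (Or.inr h)
      · exact Or.inl (Or.inl h)
      · refine Or.inr ⟨hα1, ?_⟩
        intro ξ' hξ'
        rcases Finset.mem_insert.1 hξ' with h' | h'
        · subst h'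
          exact ⟨h, hα3⟩
        · exact hα2 ξ' h'
    exact (((hΩ ξ).insert ξ).union hc).mono hsub
  have hQ' : Q (R.card + 1) := ⟨insert ξ R, Finset.card_insert_of_notMem hξR, hbig⟩
  have h3 := hQb _ hQ'
  have h4 : R.card + 1 ≤ Nat.findGreatest Q (n + 1) := Nat.le_findGreatest h3 hQ'
  omega

/-- choice of the parameters along a sequence of countable sets of branches -/
theorem exists_params (hΩ : ∀ a : Ω, (Iio a).Countable) (hunc : ¬ (univ : Set Ω).Countable)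
    (e : Ω → Ω → ℕ) (hes : ∀ a b, e a b = e b a)
    (he : ∀ (β : Ω) (n : ℕ) (s : Finset Ω), (∀ γ ∈ s, γ < β ∧ e γ β ≤ n) → s.card ≤ n + 1)
    (ν : Ω → Set Ω → Ω) (hν : ∀ δ g h, Agr δ g h → ν δ g = ν δ h)
    (T : ℕ → Set (Set Ω)) (hT : ∀ i, (T i).Countable) (n : ℕ) (E : ℕ → Set Ω)
    (hE : ∀ i, ¬ (E i).Countable) (r : ℕ → ℕ → Ω)
    (hr : ∀ i ξ, (∀ j, j ≤ n → r i j ≠ ξ) → {α ∈ E i | e ξ α ≤ n}.Countable) :
    ∃ α : ℕ → Ω, StrictMono α ∧ (∀ i, α i ∈ E i) ∧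
      ∀ g : Set Ω, (∀ i, g ∉ T i) → {i | e (ν (ex (T i) g) g) (α i) ≤ n}.Infinite →
        {i | ∃ j, j ≤ n ∧ r i j = ν (ex (T i) g) g}.Infinite := by
  classical
  have hTu : (⋃ i, T i).Countable := countable_iUnion hT
  let K : Set Ω := ⋃ i, (fun x => ν (ex (T i) x) x) '' (⋃ i, T i)
  have hK : K.Countable := countable_iUnion (fun i => hTu.image _)
  have hstep : ∀ (i : ℕ) (b : Ω), ∃ a ∈ E i, b < a ∧
      ∀ ξ, ξ ∈ K ∨ ξ ≤ b → (∀ j, j ≤ n → r i j ≠ ξ) → n < e ξ a := by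
    intro i b
    by_contra hcon
    push Not at hcon
    apply hE i
    have hsub : E i ⊆ insert b (Iio b) ∪ ⋃ ξ ∈ {ξ | (ξ ∈ K ∨ ξ ≤ b) ∧ ∀ j, j ≤ n → r i j ≠ ξ},
        {α ∈ E i | e ξ α ≤ n} := by
      intro a ha
      rcases lt_or_ge b a with h | h
      · obtain ⟨ξ, h1, h2, h3⟩ := hcon a ha h
        exact Or.inr (mem_biUnion (show ξ ∈ {ξ | (ξ ∈ K ∨ ξ ≤ b) ∧ ∀ j, j ≤ n → r i j ≠ ξ} from
          ⟨h1, h2⟩) ⟨ha, h3⟩)
      · rcases h.lt_or_eq with h' | h'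
        · exact Or.inl (Or.inr h')
        · exact Or.inl (Or.inl h')
    refine (((hΩ b).insert b).union (Countable.biUnion ?_ ?_)).mono hsub
    · refine (hK.union ((hΩ b).insert b)).mono ?_
      rintro ξ ⟨h | h, -⟩
      · exact Or.inl h
      · rcases h.lt_or_eq with h' | h'
        · exact Or.inr (Or.inr h')
        · exact Or.inr (Or.inl h')
    · intro ξ hξ
      exact hr i ξ hξ.2
  choose nx hnx1 hnx2 hnx3 using hstep
  let α : ℕ → Ω := fun i =>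
    Nat.rec (nx 0 (Classical.arbitrary Ω)) (fun i a => nx (i + 1) a) i
  have hα0 : α 0 = nx 0 (Classical.arbitrary Ω) := rfl
  have hαs : ∀ i, α (i + 1) = nx (i + 1) (α i) := fun i => rfl
  have hmono : StrictMono α := by
    refine strictMono_nat_of_lt_succ (fun i => ?_)
    rw [hαs i]
    exact hnx2 _ _
  have hαE : ∀ i, α i ∈ E i := by
    intro i
    cases i with
    | zero => rw [hα0]; exact hnx1 _ _
    | succ i => rw [hαs i]; exact hnx1 _ _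
  have hαK : ∀ i ξ, ξ ∈ K → (∀ j, j ≤ n → r i j ≠ ξ) → n < e ξ (α i) := by
    intro i ξ hξ hj
    cases i with
    | zero => rw [hα0]; exact hnx3 _ _ ξ (Or.inl hξ) hj
    | succ i => rw [hαs i]; exact hnx3 _ _ ξ (Or.inl hξ) hj
  have hαb : ∀ i k, k < i → ∀ ξ, ξ ≤ α k → (∀ j, j ≤ n → r i j ≠ ξ) → n < e ξ (α i) := by
    intro i k hk ξ hξ hj
    cases i with
    | zero => omega
    | succ i =>
      rw [hαs i]
      refine hnx3 _ _ ξ (Or.inr (hξ.trans ?_)) hj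
      exact hmono.monotone (by omega)
  refine ⟨α, hmono, hαE, fun g hg hinf => ?_⟩
  by_contra hfin
  rw [not_infinite] at hfin
  have hgu : g ∉ ⋃ i, T i := by
    rw [mem_iUnion]
    rintro ⟨i, hi⟩
    exact hg i hi
  -- the bad indices
  let I : Set ℕ := {i | e (ν (ex (T i) g) g) (α i) ≤ n} \
    {i | ∃ j, j ≤ n ∧ r i j = ν (ex (T i) g) g}
  have hI : I.Infinite := hinf.sdiff hfin
  have hIc : ∀ i ∈ I, ν (ex (T i) g) g = ν (ex (⋃ i, T i) g) g ∧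
      ∀ k, k < i → α k < ν (ex (T i) g) g := by
    rintro i ⟨hi1, hi2⟩
    have hi1' : e (ν (ex (T i) g) g) (α i) ≤ n := hi1
    have hj : ∀ j, j ≤ n → r i j ≠ ν (ex (T i) g) g := fun j hj h => hi2 ⟨j, hj, h⟩
    constructor
    · have hle : ex (T i) g ≤ ex (⋃ i, T i) g :=
        ex_mono hΩ hunc hTu (subset_iUnion T i) hgu
      rcases hle.lt_or_eq with h | h
      · exfalso
        obtain ⟨x, hx, hag⟩ := ex_min hΩ hunc hTu hgu h
        obtain ⟨-, h2⟩ := ex_congr hΩ hunc (hT i) (hg i) hag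
        have h3 : ν (ex (T i) g) g ∈ K := by
          refine mem_iUnion.2 ⟨i, x, hx, ?_⟩
          simp only
          rw [h2]
          exact (hν _ _ _ hag).symm
        exact absurd (hαK i _ h3 hj) (not_lt.2 hi1')
      · rw [h]
    · intro k hk
      by_contra hlt
      exact absurd (hαb i k hk _ (not_lt.1 hlt) hj) (not_lt.2 hi1')
  -- now all `α i`, `i ∈ I`, lie below one point
  let ξ : Ω := ν (ex (⋃ i, T i) g) g
  obtain ⟨s, hsI, hsc⟩ := hI.exists_subset_card_eq (n + 2)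
  have hlt : ∀ i ∈ I, α i < ξ := by
    intro i hi
    obtain ⟨i', hi', hii'⟩ := hI.exists_gt i
    obtain ⟨h1, h2⟩ := hIc i' hi'
    have := h2 i hii'
    rw [h1] at this
    exact this
  have hle : ∀ i ∈ I, e (α i) ξ ≤ n := by
    intro i hi
    have h1 : e (ν (ex (T i) g) g) (α i) ≤ n := hi.1
    rw [(hIc i hi).1, hes] at h1
    exact h1
  have h5 := he ξ n (s.image α) (by
    intro γ hγ
    obtain ⟨i, hi, rfl⟩ := Finset.mem_image.1 hγ
    exact ⟨hlt i (hsI hi), hle i (hsI hi)⟩)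
  rw [Finset.card_image_of_injective _ hmono.injective, hsc] at h5
  omega

end core

end Pool.Agent.H93.Cwh
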