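import Mathlib
import Pool.Agent.H93.Cwh.Core

/-! The ultrafilter argument: every `f` on pairs (countable set of branches, level) is dominated
along one sequence by all branches at once. -/

namespace Pool.Agent.H93.Cwh

open Set Filter

section core2

variable {Ω : Type} [LinearOrder Ω] [WellFoundedLT Ω] [Nonempty Ω]

/-- the countable subsets of `B` -/
abbrev Ctb (B : Set (Set Ω)) : Type := {T : Set (Set Ω) // T ⊆ B ∧ T.Countable}

omit [LinearOrder Ω] [WellFoundedLT Ω] [Nonempty Ω] in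
theorem ctb_union {B : Set (Set Ω)} (T : ℕ → Ctb B) : ∃ T' : Ctb B, ∀ i, (T i).1 ⊆ T'.1 :=
  ⟨⟨⋃ i, (T i).1, iUnion_subset (fun i => (T i).2.1), countable_iUnion (fun i => (T i).2.2)⟩,
    fun i => subset_iUnion (fun i => (T i).1) i⟩

omit [LinearOrder Ω] [WellFoundedLT Ω] [Nonempty Ω] in
theorem exists_ultra {B : Set (Set Ω)} (nn : Ctb B → ℕ) :
    ∃ (n : ℕ) (U : Ultrafilter (Ctb B)), (∀ᶠ T in (U : Filter (Ctb B)), nn T = n) ∧
      ∀ T₀ : Ctb B, ∀ᶠ T in (U : Filter (Ctb B)), T₀.1 ⊆ T.1 := by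
  classical
  have : Nonempty (Ctb B) := ⟨⟨∅, empty_subset _, countable_empty⟩⟩
  have hdir : IsDirectedOrder (Ctb B) := ⟨fun S T => ⟨⟨S.1 ∪ T.1, union_subset S.2.1 T.2.1,
    S.2.2.union T.2.2⟩, subset_union_left, subset_union_right⟩⟩
  have h1 : ∃ n, ∃ᶠ T in (atTop : Filter (Ctb B)), nn T = n := by
    by_contra hcon
    push Not at hcon
    have h2 : ∀ n, ∃ T₀ : Ctb B, ∀ T : Ctb B, T₀.1 ⊆ T.1 → nn T ≠ n := by
      intro n
      have h3 := hcon n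
      rw [eventually_atTop] at h3
      obtain ⟨T₀, hT₀⟩ := h3
      exact ⟨T₀, fun T hT => hT₀ T hT⟩
    choose T₀ hT₀ using h2
    obtain ⟨T', hT'⟩ := ctb_union T₀
    exact hT₀ (nn T') T' (hT' _) rfl
  obtain ⟨n, hn⟩ := h1
  have hne : (atTop ⊓ 𝓟 {T : Ctb B | nn T = n}).NeBot := by
    rw [← frequently_mem_iff_neBot]
    exact hn
  obtain ⟨U, hU⟩ := Ultrafilter.exists_le (atTop ⊓ 𝓟 {T : Ctb B | nn T = n})
  refine ⟨n, U, ?_, fun T₀ => ?_⟩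
  · have h4 : (U : Filter (Ctb B)) ≤ 𝓟 {T : Ctb B | nn T = n} := hU.trans inf_le_right
    exact le_principal_iff.1 h4
  · have h5 : (U : Filter (Ctb B)) ≤ atTop := hU.trans inf_le_left
    exact h5 (mem_atTop T₀)

theorem exists_seq (hΩ : ∀ a : Ω, (Iio a).Countable) (hunc : ¬ (univ : Set Ω).Countable)
    (e : Ω → Ω → ℕ) (hes : ∀ a b, e a b = e b a)
    (he : ∀ (β : Ω) (n : ℕ) (s : Finset Ω), (∀ γ ∈ s, γ < β ∧ e γ β ≤ n) → s.card ≤ n + 1)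
    (ν : Ω → Set Ω → Ω) (hν : ∀ δ g h, Agr δ g h → ν δ g = ν δ h)
    (B : Set (Set Ω)) (hB : ∀ z : Set Ω, (∀ δ, ∃ b ∈ B, Agr δ z b) → z ∈ B)
    (hνi : ∀ δ δ' g h, g ∈ B → h ∈ B → ν δ g = ν δ' h → δ = δ' ∧ Agr δ g h)
    (f : Ctb B → Ω → ℕ) :
    ∃ (T : ℕ → Ctb B) (α : ℕ → Ω), Function.Injective α ∧
      ∀ g ∈ B, (∀ i, g ∉ (T i).1) → {i | e (ν (ex (T i).1 g) g) (α i) ≤ f (T i) (α i)}.Finite := by
  classical
  by_contra hcon
  push Not at hcon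
  have hroot := fun T : Ctb B => exists_root hΩ hunc e he (f T)
  choose nn E hE1 hE2 r hr using hroot
  obtain ⟨n, U, hUn, hUT⟩ := exists_ultra nn
  -- the relation
  let M : ℕ → ℕ → Ctb B → Ctb B → Prop := fun j l T T' => ∃ g ∈ B, g ∉ T.1 ∧ g ∉ T'.1 ∧
    ν (ex T.1 g) g = r T j ∧ ν (ex T'.1 g) g = r T' l
  have S1 : ∀ T : ℕ → Ctb B, (∀ i, nn (T i) = n) →
      ∃ i i', i < i' ∧ ∃ j, j ≤ n ∧ ∃ l, l ≤ n ∧ M j l (T i) (T i') := by
    intro T hT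
    obtain ⟨α, hα1, hα2, hα3⟩ := exists_params hΩ hunc e hes he ν hν (fun i => (T i).1)
      (fun i => (T i).2.2) n (fun i => E (T i)) (fun i => hE1 (T i)) (fun i => r (T i))
      (fun i ξ hξ => by
        have := hr (T i) ξ
        rw [hT i] at this
        exact this hξ)
    obtain ⟨g, hgB, hgT, hginf⟩ := hcon T α hα1.injective
    have hfi : ∀ i, f (T i) (α i) = n := fun i => (hE2 (T i) (α i) (hα2 i)).trans (hT i)
    have h1 : {i | e (ν (ex (T i).1 g) g) (α i) ≤ n}.Infinite := by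
      have h2 : {i | e (ν (ex (T i).1 g) g) (α i) ≤ f (T i) (α i)} =
          {i | e (ν (ex (T i).1 g) g) (α i) ≤ n} := by
        ext i
        simp only [mem_ofPred_eq]
        rw [hfi i]
      rw [← h2]
      exact hginf
    have h3 := hα3 g hgT h1
    obtain ⟨i, hi⟩ := h3.nonempty
    obtain ⟨i', hi', hii'⟩ := h3.exists_gt i
    obtain ⟨j, hj, hj'⟩ := hi
    obtain ⟨l, hl, hl'⟩ := hi'
    exact ⟨i, i', hii', j, hj, l, hl, g, hgB, hgT i, hgT i', hj'.symm, hl'.symm⟩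
  -- Claim A
  have cA : ∀ᶠ T in (U : Filter (Ctb B)), ∀ᶠ T' in (U : Filter (Ctb B)),
      ∃ p ∈ ((Iic n ×ˢ Iic n : Set (ℕ × ℕ))), M p.1 p.2 T T' := by
    by_contra hA
    rw [← Ultrafilter.eventually_not] at hA
    have hA2 : ∀ᶠ T in (U : Filter (Ctb B)), ∀ᶠ T' in (U : Filter (Ctb B)),
        ¬ ∃ p ∈ ((Iic n ×ˢ Iic n : Set (ℕ × ℕ))), M p.1 p.2 T T' := by
      filter_upwards [hA] with T hT
      rw [Ultrafilter.eventually_not]
      exact hT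
    obtain ⟨T, hT1, hT2⟩ := exists_seq_of_forall_finset_exists
      (fun T : Ctb B => nn T = n ∧ ∀ᶠ T' in (U : Filter (Ctb B)),
        ¬ ∃ p ∈ ((Iic n ×ˢ Iic n : Set (ℕ × ℕ))), M p.1 p.2 T T')
      (fun T T' => ¬ ∃ p ∈ ((Iic n ×ˢ Iic n : Set (ℕ × ℕ))), M p.1 p.2 T T') (by
        intro s hs
        have h1 : ∀ᶠ y in (U : Filter (Ctb B)), ∀ x ∈ s,
            ¬ ∃ p ∈ ((Iic n ×ˢ Iic n : Set (ℕ × ℕ))), M p.1 p.2 x y := by
          rw [Filter.eventually_all_finset]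
          exact fun x hx => (hs x hx).2
        obtain ⟨y, hy1, hy2, hy3⟩ := (hUn.and (hA2.and h1)).exists
        exact ⟨y, ⟨hy1, hy2⟩, hy3⟩)
    obtain ⟨i, i', hii', j, hj, l, hl, hM⟩ := S1 T (fun i => (hT1 i).1)
    exact hT2 i i' hii' ⟨(j, l), ⟨hj, hl⟩, hM⟩
  -- Claim B
  have hfinp : ((Iic n ×ˢ Iic n : Set (ℕ × ℕ))).Finite := (finite_Iic n).prod (finite_Iic n)
  have cB : ∃ p ∈ ((Iic n ×ˢ Iic n : Set (ℕ × ℕ))), ∀ᶠ T in (U : Filter (Ctb B)),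
      ∀ᶠ T' in (U : Filter (Ctb B)), M p.1 p.2 T T' := by
    rw [← Ultrafilter.eventually_exists_mem_iff hfinp]
    filter_upwards [cA] with T hT
    rw [Ultrafilter.eventually_exists_mem_iff hfinp] at hT
    exact hT
  obtain ⟨⟨j, l⟩, -, hjl⟩ := cB
  simp only at hjl
  -- the good set and its witnesses
  let G : Set (Ctb B) := {T | ∀ᶠ T' in (U : Filter (Ctb B)), M j l T T'}
  have hG : ∀ T₀ : Ctb B, ∃ T ∈ G, T₀.1 ⊆ T.1 := by
    intro T₀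
    obtain ⟨T, h1, h2⟩ := (hjl.and (hUT T₀)).exists
    exact ⟨T, h1, h2⟩
  have hwit : ∀ T : Ctb B, ∃ g : Set Ω, T ∈ G → g ∈ B ∧ g ∉ T.1 ∧ ν (ex T.1 g) g = r T j := by
    intro T
    by_cases hT : T ∈ G
    · obtain ⟨T', g, h1, h2, -, h3, -⟩ := (show ∀ᶠ T' in (U : Filter (Ctb B)), M j l T T' from
        hT).exists
      exact ⟨g, fun _ => ⟨h1, h2, h3⟩⟩
    · exact ⟨∅, fun h => absurd h hT⟩
  choose γ hγ using hwit
  -- Claim C
  have cC : ∀ S ∈ G, ∀ T ∈ G, Agr (min (ex S.1 (γ S)) (ex T.1 (γ T))) (γ S) (γ T) := by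
    intro S hS T hT
    obtain ⟨hS1, hS2, hS3⟩ := hγ S hS
    obtain ⟨hT1, hT2, hT3⟩ := hγ T hT
    have hS' : ∀ᶠ T' in (U : Filter (Ctb B)), M j l S T' := hS
    have hT' : ∀ᶠ T' in (U : Filter (Ctb B)), M j l T T' := hT
    obtain ⟨R, hR1, hR2, hR3, hR4⟩ := (hS'.and (hT'.and ((hUT S).and (hUT T)))).exists
    obtain ⟨g, hg1, hg2, hg3, hg4, hg5⟩ := hR1
    obtain ⟨h, hh1, hh2, hh3, hh4, hh5⟩ := hR2
    obtain ⟨e1, a1⟩ := hνi _ _ _ _ hg1 hS1 (hg4.trans hS3.symm)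
    obtain ⟨e2, a2⟩ := hνi _ _ _ _ hh1 hT1 (hh4.trans hT3.symm)
    obtain ⟨e3, a3⟩ := hνi _ _ _ _ hg1 hh1 (hg5.trans hh5.symm)
    have m1 : ex S.1 g ≤ ex R.1 g := ex_mono hΩ hunc R.2.2 hR3 hg3
    rw [← e1, ← e2]
    exact ((a1.symm.mono (min_le_left _ _)).trans
      (a3.mono ((min_le_left _ _).trans m1))).trans (a2.mono (min_le_right _ _))
  -- Claim D
  by_cases hbd : ∃ b, ∀ T ∈ G, ex T.1 (γ T) ≤ b
  · obtain ⟨b, hb⟩ := hbd
    have hrep : ∀ δ : Ω, ∃ S : Ctb B, (∃ T ∈ G, ex T.1 (γ T) = δ) → S ∈ G ∧ ex S.1 (γ S) = δ := by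
      intro δ
      by_cases h : ∃ T ∈ G, ex T.1 (γ T) = δ
      · obtain ⟨T, h1, h2⟩ := h
        exact ⟨T, fun _ => ⟨h1, h2⟩⟩
      · exact ⟨⟨∅, empty_subset _, countable_empty⟩, fun h' => absurd h' h⟩
    choose rep hrep using hrep
    let X : Set (Set Ω) := B ∩ ((fun δ => γ (rep δ)) '' (insert b (Iio b)))
    obtain ⟨T, hT, hXT⟩ := hG ⟨X, inter_subset_left,
      (((hΩ b).insert b).image _).mono inter_subset_right⟩
    obtain ⟨h1, h2⟩ := hrep (ex T.1 (γ T)) ⟨T, hT, rfl⟩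
    have h3 : γ (rep (ex T.1 (γ T))) ∈ X := by
      refine ⟨(hγ _ h1).1, ex T.1 (γ T), ?_, rfl⟩
      rcases (hb T hT).lt_or_eq with h | h
      · exact Or.inr h
      · exact Or.inl h
    have h4 := cC T hT _ h1
    rw [h2, min_self] at h4
    exact ex_spec hΩ hunc T.2.2 (hγ T hT).2.1 _ (hXT h3) h4
  · push Not at hbd
    let z : Set Ω := {η | ∃ T ∈ G, η < ex T.1 (γ T) ∧ η ∈ γ T}
    have hz : ∀ T ∈ G, Agr (ex T.1 (γ T)) (γ T) z := by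
      intro T hT η hη
      constructor
      · intro h
        exact ⟨T, hT, hη, h⟩
      · rintro ⟨S, hS, hη2, h⟩
        exact (cC T hT S hS η (lt_min hη hη2)).2 h
    have hzB : z ∈ B := by
      refine hB z (fun δ => ?_)
      obtain ⟨T, hT, hδ⟩ := hbd δ
      exact ⟨γ T, (hγ T hT).1, ((hz T hT).symm).mono hδ.le⟩
    obtain ⟨T, hT, hXT⟩ := hG ⟨{z}, singleton_subset_iff.2 hzB, countable_singleton z⟩
    exact ex_spec hΩ hunc T.2.2 (hγ T hT).2.1 z (hXT rfl) (hz T hT)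

end core2

end Pool.Agent.H93.Cwh
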