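import Mathlib
import Pool.Agent.H93.Cwh.Core2
import Pool.Agent.H93.Cwh.Comb

/-! Weak Kurepa families give domination along sequences. -/

namespace Pool.Agent.H93.Cwh

open Set Filter Cardinal

section tree

variable {Ω : Type} [LinearOrder Ω]

/-- the closure of a family of branches -/
def cl (B : Set (Set Ω)) : Set (Set Ω) := {z | ∀ δ, ∃ b ∈ B, Agr δ z b}

theorem subset_cl (B : Set (Set Ω)) : B ⊆ cl B := fun b hb δ => ⟨b, hb, Agr.refl δ b⟩

theorem cl_closed (B : Set (Set Ω)) (z : Set Ω) (hz : ∀ δ, ∃ b ∈ cl B, Agr δ z b) :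
    z ∈ cl B := by
  intro δ
  obtain ⟨b, hb, h1⟩ := hz δ
  obtain ⟨c, hc, h2⟩ := hb δ
  exact ⟨c, hc, h1.trans h2⟩

theorem agr_iff {δ : Ω} {g h : Set Ω} : Agr δ g h ↔ g ∩ Iio δ = h ∩ Iio δ := by
  constructor
  · intro H
    ext η
    constructor
    · rintro ⟨h1, h2⟩
      exact ⟨(H η h2).1 h1, h2⟩
    · rintro ⟨h1, h2⟩
      exact ⟨(H η h2).2 h1, h2⟩
  · intro H η hη
    constructor
    · intro h1
      have : η ∈ g ∩ Iio δ := ⟨h1, hη⟩
      rw [H] at this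
      exact this.1
    · intro h1
      have : η ∈ h ∩ Iio δ := ⟨h1, hη⟩
      rw [← H] at this
      exact this.1

/-- symmetric colouring of pairs, injective on each initial segment -/
theorem exists_colouring (hΩ : ∀ a : Ω, (Iio a).Countable) :
    ∃ e : Ω → Ω → ℕ, (∀ a b, e a b = e b a) ∧
      ∀ (β : Ω) (n : ℕ) (s : Finset Ω), (∀ γ ∈ s, γ < β ∧ e γ β ≤ n) → s.card ≤ n + 1 := by
  classical
  have h1 : ∀ β : Ω, ∃ i : Ω → ℕ, InjOn i (Iio β) := fun β =>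
    countable_iff_exists_injOn.1 (hΩ β)
  choose i hi using h1
  refine ⟨fun a b => if a < b then i b a else if b < a then i a b else 0, ?_, ?_⟩
  · intro a b
    rcases lt_trichotomy a b with h | h | h
    · simp [h, not_lt.2 h.le]
    · simp [h]
    · simp [h, not_lt.2 h.le]
  · intro β n s hs
    have h2 : (s.image (i β)) ⊆ Finset.range (n + 1) := by
      intro m hm
      obtain ⟨γ, hγ, rfl⟩ := Finset.mem_image.1 hm
      obtain ⟨h3, h4⟩ := hs γ hγ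
      simp only [h3, if_true] at h4
      exact Finset.mem_range.2 (by omega)
    have h5 : (s.image (i β)).card = s.card := by
      refine Finset.card_image_of_injOn ?_
      intro γ hγ γ' hγ' h
      exact hi β (hs γ hγ).1 (hs γ' hγ').1 h
    have h6 := Finset.card_le_card h2
    rw [h5, Finset.card_range] at h6
    exact h6

/-- numbering of the nodes -/
theorem exists_index [Nonempty Ω] {ν₁ : Cardinal.{0}} (hinf : ℵ₀ ≤ ν₁) (hΩ1 : #Ω = ν₁)
    (B : Set (Set Ω)) (htr : ∀ δ : Ω, #((fun b : Set Ω => b ∩ Iio δ) '' B) ≤ ν₁) :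
    ∃ ν : Ω → Set Ω → Ω, (∀ δ g h, Agr δ g h → ν δ g = ν δ h) ∧
      ∀ δ δ' g h, g ∈ cl B → h ∈ cl B → ν δ g = ν δ' h → δ = δ' ∧ Agr δ g h := by
  classical
  let S : Set (Ω × Set Ω) := ⋃ δ : Ω, (fun t => (δ, t)) '' ((fun b : Set Ω => b ∩ Iio δ) '' B)
  have hS : #S ≤ #Ω := by
    have h1 : #S ≤ Cardinal.sum fun δ : Ω =>
        #((fun t => (δ, t)) '' ((fun b : Set Ω => b ∩ Iio δ) '' B)) := mk_iUnion_le_sum_mk
    refine h1.trans ?_
    refine (Cardinal.sum_le_sum _ (fun _ => ν₁) (fun δ => mk_image_le.trans (htr δ))).trans ?_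
    rw [Cardinal.sum_const]
    simp only [lift_id]
    rw [hΩ1]
    exact (Cardinal.mul_eq_self hinf).le
  obtain ⟨ι⟩ := hS
  have hmem : ∀ δ g, g ∈ cl B → (δ, g ∩ Iio δ) ∈ S := by
    intro δ g hg
    obtain ⟨b, hb, hgb⟩ := hg δ
    refine mem_iUnion.2 ⟨δ, g ∩ Iio δ, ⟨b, hb, ?_⟩, rfl⟩
    exact (agr_iff.1 hgb).symm
  refine ⟨fun δ g => if h : (δ, g ∩ Iio δ) ∈ S then ι ⟨(δ, g ∩ Iio δ), h⟩ else
    Classical.arbitrary Ω, ?_, ?_⟩
  · intro δ g h hgh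
    rw [agr_iff] at hgh
    simp only [hgh]
  · intro δ δ' g h hg hh heq
    simp only [hmem δ g hg, hmem δ' h hh, dite_true] at heq
    have h1 := ι.injective heq
    have h2 : (δ, g ∩ Iio δ) = (δ', h ∩ Iio δ') := congrArg Subtype.val h1
    obtain ⟨h3, h4⟩ := Prod.mk.inj h2
    subst h3
    exact ⟨rfl, agr_iff.2 h4⟩

theorem seqDom_of_family [WellFoundedLT Ω] (hΩ : ∀ a : Ω, (Iio a).Countable)
    (hunc : ¬ (univ : Set Ω).Countable) {ν₁ : Cardinal.{0}} (hinf : ℵ₀ ≤ ν₁) (hΩ1 : #Ω = ν₁)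
    (B : Set (Set Ω)) (htr : ∀ δ : Ω, #((fun b : Set Ω => b ∩ Iio δ) '' B) ≤ ν₁)
    {μ : Cardinal.{0}} (hμ : ℵ₀ ≤ μ) (hB : μ < #B) :
    SeqDom μ (Ctb (cl B) × Ω) := by
  classical
  have hne : Nonempty Ω := by
    by_contra h
    rw [not_nonempty_iff] at h
    exact hunc (Set.to_countable _)
  obtain ⟨e, hes, he⟩ := exists_colouring hΩ
  obtain ⟨ν, hν, hνi⟩ := exists_index hinf hΩ1 B htr
  have hkey : ∀ f : Ctb (cl B) × Ω → ℕ, ∃ (T : ℕ → Ctb (cl B)) (α : ℕ → Ω),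
      Function.Injective α ∧ ∀ g ∈ cl B, (∀ i, g ∉ (T i).1) →
        {i | e (ν (ex (T i).1 g) g) (α i) ≤ f (T i, α i)}.Finite := fun f =>
    exists_seq hΩ hunc e hes he ν hν (cl B) (cl_closed B) hνi (fun T α => f (T, α))
  choose T α hα hTα using hkey
  refine ⟨fun f k => (T f k, α f k), ?_, ?_⟩
  · intro f i j hij
    exact hα f (Prod.mk.inj hij).2
  · intro 𝓕 h𝓕
    have hU : #(⋃ p : 𝓕 × ℕ, (T p.1.1 p.2).1) ≤ μ := by
      have h1 : #(⋃ p : 𝓕 × ℕ, (T p.1.1 p.2).1) ≤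
          Cardinal.sum fun p : 𝓕 × ℕ => #((T p.1.1 p.2).1) := mk_iUnion_le_sum_mk
      refine h1.trans ?_
      refine (Cardinal.sum_le_sum _ (fun _ => μ) (fun p : 𝓕 × ℕ =>
        (Cardinal.le_aleph0_iff_set_countable.2 (T p.1.1 p.2).2.2).trans hμ)).trans ?_
      rw [Cardinal.sum_const]
      simp only [lift_id, mk_prod, mk_eq_aleph0]
      exact Cardinal.mul_le_of_le hμ (Cardinal.mul_le_of_le hμ h𝓕 hμ) le_rfl
    have hz : ∃ z ∈ cl B, z ∉ ⋃ p : 𝓕 × ℕ, (T p.1.1 p.2).1 := by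
      by_contra hcon
      push Not at hcon
      have h2 : #B ≤ μ := (mk_le_mk_of_subset ((subset_cl B).trans hcon)).trans hU
      exact absurd hB (not_lt.2 h2)
    obtain ⟨z, hzB, hz⟩ := hz
    refine ⟨fun p => e (ν (ex p.1.1 z) z) p.2, fun f hf => ?_⟩
    have h3 := hTα f z hzB (fun i hi => hz (mem_iUnion.2 ⟨(⟨f, hf⟩, i), hi⟩))
    have h4 : ∀ᶠ k in atTop, k ∉ {i | e (ν (ex (T f i).1 z) z) (α f i) ≤ f (T f i, α f i)} := by
      rw [← Nat.cofinite_eq_atTop]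
      exact h3.compl_mem_cofinite
    filter_upwards [h4] with k hk
    exact not_le.1 hk

end tree

end Pool.Agent.H93.Cwh
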