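import Mathlib
import Pool.Agent.H93.Cwh.Tree
import Pool.Agent.H93.Cwh.Topo

/-! Reflection of collectionwise Hausdorffness: characterization and consequences. -/

namespace Pool.Agent.H93.Cwh

open Cardinal Set Topology Filter

/-- Every first countable Hausdorff space with a clopen basis which is `μ`-collectionwise
Hausdorff is `κ`-collectionwise Hausdorff for all `κ`. -/
def Reflects (μ : Cardinal.{0}) : Prop :=
  ∀ (X : Type) [TopologicalSpace X] [FirstCountableTopology X] [T2Space X],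
    TopologicalSpace.IsTopologicalBasis {s : Set X | IsClopen s} → IsCWH μ X → ∀ κ, IsCWH κ X

theorem exists_space_of_seqDom {μ : Cardinal.{0}} {N : Type} (h : SeqDom μ N) :
    ∃ (X : Type) (_ : TopologicalSpace X), FirstCountableTopology X ∧ T2Space X ∧
      TopologicalSpace.IsTopologicalBasis {s : Set X | IsClopen s} ∧ IsCWH μ X ∧
        ∃ κ, ¬ IsCWH κ X := by
  obtain ⟨a, ha, hd⟩ := h
  have hbad := seqSys_bad a hd
  have hreg := seqSys_reg a ha
  exact ⟨Fan (seqSys a), inferInstance, inferInstance, t2 hbad.symm hbad.down hreg,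
    clopen_basis hbad.symm hbad.down hreg, isCWH_fan hbad, _, not_isCWH_fan hbad⟩

theorem not_reflects_of_seqDom {μ : Cardinal.{0}} {N : Type} (h : SeqDom μ N) :
    ¬ Reflects μ := by
  intro hR
  obtain ⟨X, _, h1, h2, h3, h4, κ, h5⟩ := exists_space_of_seqDom h
  exact h5 (hR X h3 h4 κ)

theorem exists_seqDom {μ : Cardinal.{0}} (hμ : ℵ₀ ≤ μ) (X : Type) [TopologicalSpace X]
    [FirstCountableTopology X] (hX : IsCWH μ X) {κ : Cardinal.{0}} (hκ : ¬ IsCWH κ X) :
    ∃ N : Type, SeqDom μ N := by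
  obtain ⟨D, F, hF⟩ := exists_badSystem hX hκ
  exact ⟨_, seqDom_of_bad hμ hF⟩

theorem countable_Iio_omega (a : (ℵ₁ : Cardinal.{0}).ord.ToType) : (Iio a).Countable := by
  have h : #(Iio a) < ℵ₁ := (Cardinal.mk_Iio_lt a (by simp)).trans_le (mk_ord_toType _).le
  have h2 : #(Iio a) < Order.succ ℵ₀ := h.trans_le succ_aleph0.ge
  exact Cardinal.le_aleph0_iff_set_countable.1 (Order.lt_succ_iff.1 h2)

theorem not_countable_omega : ¬ (univ : Set (ℵ₁ : Cardinal.{0}).ord.ToType).Countable := by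
  intro h
  have h2 := Cardinal.le_aleph0_iff_set_countable.2 h
  rw [mk_univ, mk_ord_toType] at h2
  exact absurd aleph0_lt_aleph_one (not_lt.2 h2)

theorem card_le_of_reflects {μ : Cardinal.{0}} (hμ : ℵ₀ ≤ μ) (hR : Reflects μ)
    (B : Set (Set (ℵ₁ : Cardinal.{0}).ord.ToType))
    (hB : ∀ δ, #((fun b : Set (ℵ₁ : Cardinal.{0}).ord.ToType => b ∩ Iio δ) '' B) ≤ ℵ₁) :
    #B ≤ μ := by
  by_contra hlt
  rw [not_le] at hlt
  exact not_reflects_of_seqDom (seqDom_of_family countable_Iio_omega not_countable_omega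
    (aleph0_lt_aleph_one.le) (mk_ord_toType _) B hB hμ hlt) hR

theorem two_power_le_of_reflects (hCH : (𝔠 : Cardinal.{0}) = ℵ₁) {μ : Cardinal.{0}}
    (hμ : ℵ₀ ≤ μ) (hR : Reflects μ) : 2 ^ (ℵ₁ : Cardinal.{0}) ≤ μ := by
  have h1 := card_le_of_reflects hμ hR univ (fun δ => by
    have h2 : #((fun b : Set (ℵ₁ : Cardinal.{0}).ord.ToType => b ∩ Iio δ) '' univ) ≤
        #(𝒫 (Iio δ)) := by
      refine mk_le_mk_of_subset ?_
      rintro _ ⟨b, -, rfl⟩
      exact inter_subset_right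
    refine h2.trans ?_
    rw [mk_powerset]
    refine (power_le_power_left two_ne_zero
      (Cardinal.le_aleph0_iff_set_countable.2 (countable_Iio_omega δ))).trans ?_
    rw [two_power_aleph0, hCH])
  rw [mk_univ, mk_set, mk_ord_toType] at h1
  exact h1

theorem seqDom_nat {μ : Cardinal.{0}} (h : ∀ 𝓕 : Set (ℕ → ℕ), #𝓕 ≤ μ →
    ∃ g : ℕ → ℕ, ∀ f ∈ 𝓕, ∀ᶠ k in atTop, f k ≤ g k) : SeqDom μ ℕ := by
  refine ⟨fun _ k => k, fun _ => Function.injective_id, fun 𝓕 h𝓕 => ?_⟩
  obtain ⟨g, hg⟩ := h 𝓕 h𝓕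
  refine ⟨fun k => g k + 1, fun f hf => ?_⟩
  filter_upwards [hg f hf] with k hk
  exact Nat.lt_succ_of_le hk

end Pool.Agent.H93.Cwh
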