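import Mathlib
import Pool.Agent.H93.Cwh.Main

/-!
From the combinatorial theorem (STAR) on `ω₂` to a first countable `ℵ₁`-cwH space which is not cwH.
-/

namespace Pool.Agent.H93.Cwh

open Cardinal Set Filter

/-- (STAR) for `W`: no upward closed family of subsets of `W` is two-sided continuous. -/
def Star (W : Type) : Prop :=
  ∀ M : Set (Set W), (∀ A ∈ M, ∀ B, A ⊆ B → B ∈ M) →
    (∃ X : ℕ → Set W, (∀ k, X k ∉ M) ∧ #{w | ∃ᶠ k in atTop, w ∉ X k} ≤ ℵ₁) ∨
    (∃ X : ℕ → Set W, (∀ k, X k ∈ M) ∧ ∀ w, ∀ᶠ k in atTop, w ∉ X k)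

/-- functions to `ω ∪ {∞}` with at most `ℵ₁` infinite values -/
abbrev DW (W : Type) : Type := {φ : W → WithTop ℕ // #{w | φ w = ⊤} ≤ ℵ₁}

/-- the pair system -/
def FW {W : Type} (φ ψ : DW W) (m n : ℕ) : Prop := ∀ w, ¬ (φ.1 w ≤ m ∧ ψ.1 w ≤ n)

theorem badSystem_FW {W : Type} (hW : ℵ₁ < #W) (h : Star W) : BadSystem ℵ₁ (FW (W := W)) where
  symm := fun d e m n h w hw => h w hw.symm
  down := fun d e m n m' n' h hm hn w hw =>
    h w ⟨hw.1.trans (by exact_mod_cast hm), hw.2.trans (by exact_mod_cast hn)⟩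
  small := by
    intro S hS
    have h1 : #(⋃ d ∈ S, {w | d.1 w = ⊤}) ≤ ℵ₁ := by
      have h2 : #(⋃ d : S, {w | d.1.1 w = ⊤}) ≤ Cardinal.sum fun d : S => #{w | d.1.1 w = ⊤} :=
        mk_iUnion_le_sum_mk
      have h3 : (⋃ d ∈ S, {w | d.1 w = ⊤}) = ⋃ d : S, {w | d.1.1 w = ⊤} := by
        ext w; simp
      rw [h3]
      refine h2.trans ((Cardinal.sum_le_sum _ (fun _ => ℵ₁) (fun d => d.1.2)).trans ?_)
      rw [Cardinal.sum_const, lift_id, lift_id]
      exact Cardinal.mul_le_of_le aleph0_lt_aleph_one.le hS le_rfl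
    have h4 : ∃ g : W, g ∉ ⋃ d ∈ S, {w | d.1 w = ⊤} := by
      by_contra hcon
      push Not at hcon
      have h5 : (⋃ d ∈ S, {w : W | d.1 w = ⊤}) = Set.univ := eq_univ_of_forall hcon
      rw [h5, mk_univ] at h1
      exact absurd h1 (not_le.2 hW)
    obtain ⟨g, hg⟩ := h4
    have hg' : ∀ d ∈ S, d.1 g ≠ ⊤ := by
      intro d hd h
      exact hg (mem_biUnion hd h)
    refine ⟨fun d => (d.1 g).untopD 0, ?_⟩
    intro d hd e he _ hF
    refine hF g ⟨?_, ?_⟩
    · show d.1 g ≤ (((d.1 g).untopD 0 : ℕ) : WithTop ℕ)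
      obtain ⟨n, hn⟩ := WithTop.ne_top_iff_exists.1 (hg' d hd)
      rw [← hn]; exact le_refl _
    · show e.1 g ≤ (((e.1 g).untopD 0 : ℕ) : WithTop ℕ)
      obtain ⟨n, hn⟩ := WithTop.ne_top_iff_exists.1 (hg' e he)
      rw [← hn]; exact le_refl _
  bad := by
    classical
    rintro ⟨f, hf⟩
    have hgood : ∀ φ ψ : DW W, φ ≠ ψ → ∃ w, φ.1 w ≤ f φ ∧ ψ.1 w ≤ f ψ := by
      intro φ ψ hne
      have h1 := hf φ (mem_univ _) ψ (mem_univ _) hne
      unfold FW at h1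
      push Not at h1
      exact h1
    let b : DW W → Set W := fun φ => {w | φ.1 w ≤ f φ}
    have hbne : ∀ φ : DW W, (b φ).Nonempty := by
      intro φ
      have hz : ∀ n : ℕ, #{w : W | ((fun _ => (n : WithTop ℕ)) : W → WithTop ℕ) w = ⊤} ≤ ℵ₁ := by
        intro n
        have : {w : W | ((fun _ => (n : WithTop ℕ)) : W → WithTop ℕ) w = ⊤} = ∅ := by
          ext w; simp
        rw [this]; simp
      have hW' : Nonempty W := by
        have : #W ≠ 0 := (lt_of_le_of_lt (zero_le) hW).ne'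
        exact Cardinal.mk_ne_zero_iff.1 this
      by_cases h0 : φ = ⟨fun _ => ((0 : ℕ) : WithTop ℕ), hz 0⟩
      · have hne : φ ≠ ⟨fun _ => ((1 : ℕ) : WithTop ℕ), hz 1⟩ := by
          rw [h0]
          intro h
          have h1 := congrArg (fun x : DW W => x.1 hW'.some) h
          simp at h1
        obtain ⟨w, hw, _⟩ := hgood _ _ hne
        exact ⟨w, hw⟩
      · obtain ⟨w, hw, _⟩ := hgood _ _ h0
        exact ⟨w, hw⟩
    rcases h {X | ∃ φ : DW W, b φ ⊆ X} (fun A ⟨φ, hφ⟩ B hAB => ⟨φ, hφ.trans hAB⟩) with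
      ⟨X, hX, hs⟩ | ⟨X, hX, hs⟩
    · -- ψ w = least m such that w ∈ X k for all k ≥ m
      let ψ : W → WithTop ℕ := fun w =>
        if hw : ∃ m : ℕ, ∀ k, m ≤ k → w ∈ X k then ((Nat.find hw : ℕ) : WithTop ℕ) else ⊤
      have hψ : #{w | ψ w = ⊤} ≤ ℵ₁ := by
        refine le_trans (mk_le_mk_of_subset ?_) hs
        intro w hw
        have hw' : ¬ ∃ m : ℕ, ∀ k, m ≤ k → w ∈ X k := by
          intro hex
          have : ψ w = ((Nat.find hex : ℕ) : WithTop ℕ) := dif_pos hex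
          rw [Set.mem_ofPred_eq, this] at hw
          exact WithTop.coe_ne_top hw
        show ∃ᶠ k in atTop, w ∉ X k
        rw [Filter.frequently_atTop]
        intro n
        by_contra hcon
        push Not at hcon
        exact hw' ⟨n, fun k hk => hcon k hk⟩
      refine hX (f ⟨ψ, hψ⟩) ⟨⟨ψ, hψ⟩, ?_⟩
      intro w hw
      have hw1 : ψ w ≤ ((f ⟨ψ, hψ⟩ : ℕ) : WithTop ℕ) := hw
      by_cases hex : ∃ m : ℕ, ∀ k, m ≤ k → w ∈ X k
      · have h2 : ψ w = ((Nat.find hex : ℕ) : WithTop ℕ) := dif_pos hex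
        rw [h2] at hw1
        exact Nat.find_spec hex _ (by exact_mod_cast hw1)
      · have h2 : ψ w = ⊤ := dif_neg hex
        rw [h2] at hw1
        exact absurd (top_le_iff.1 hw1) (WithTop.coe_ne_top)
    · have hX' : ∀ k, ∃ φ : DW W, b φ ⊆ X k := hX
      choose φ hφ using hX'
      have hfin : ∀ w, ∃ m : ℕ, ∀ k, m ≤ k → w ∉ X k := fun w => eventually_atTop.1 (hs w)
      let ψ : W → WithTop ℕ := fun w => ((Nat.find (hfin w) : ℕ) : WithTop ℕ)
      have hψ : #{w | ψ w = ⊤} ≤ ℵ₁ := by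
        have : {w | ψ w = ⊤} = ∅ := by
          ext w
          simp only [Set.mem_ofPred_eq, mem_empty_iff_false, iff_false]
          exact WithTop.coe_ne_top
        rw [this]; simp
      let Ψ : DW W := ⟨ψ, hψ⟩
      have hdisj : ∀ w, w ∈ b Ψ → w ∉ b (φ (f Ψ)) := by
        intro w hw hw2
        have hw1 : ψ w ≤ ((f Ψ : ℕ) : WithTop ℕ) := hw
        have hw3 : Nat.find (hfin w) ≤ f Ψ := WithTop.coe_le_coe.1 hw1
        exact Nat.find_spec (hfin w) _ hw3 (hφ _ hw2)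
      by_cases he : Ψ = φ (f Ψ)
      · obtain ⟨w, hw⟩ := hbne Ψ
        have h1 := hdisj w hw
        rw [← he] at h1
        exact h1 hw
      · obtain ⟨w, h1, h2⟩ := hgood _ _ he
        exact hdisj w h1 h2

theorem exists_space_of_star {W : Type} (hW : ℵ₁ < #W) (h : Star W) :
    ∃ (X : Type) (_ : TopologicalSpace X), FirstCountableTopology X ∧ T2Space X ∧
      TopologicalSpace.IsTopologicalBasis {s : Set X | IsClopen s} ∧ IsCWH ℵ₁ X ∧
        ∃ κ, ¬ IsCWH κ X :=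
  exists_space_of_seqDom (seqDom_of_bad aleph0_lt_aleph_one.le (badSystem_FW hW h))

end Pool.Agent.H93.Cwh
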